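import Pool.Agent.TH606.Arov.Disc

/-!
# Absolute continuity of all measures `σ_ε`
-/

open Finset MeasureTheory Filter Topology Complex
open Pool.Agent.Helper630.Szego

namespace Pool.Agent.TH606.Arov

open scoped ENNReal
open MeasureTheory.VectorMeasure

variable {N M : Type*} [NormedAddCommGroup N] [InnerProductSpace ℂ N] [CompleteSpace N]
  [NormedAddCommGroup M] [InnerProductSpace ℂ M] [CompleteSpace M]

/-- mass of one small ball, from the size of `F` at one point -/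
lemma ball_mass' {F : ℂ → N →L[ℂ] N} {σ : VectorMeasure TT (N →L[ℂ] N)} (hF : IsHerglotz F σ)
    [IsFiniteMeasure (VectorMeasure.variation (V := N →L[ℂ] N) σ)] (ξ : N)
    (μ : Measure TT) [IsFiniteMeasure μ] (hμ : μ = qm (V := N →L[ℂ] N) σ (qf ξ) (fun Δ => qf_nonneg ξ (hF.1 Δ)))
    {C : ℝ} (hC : 0 ≤ C) (θ₀ : TT) {d : ℝ} (hd0 : 0 < d) (hd : d ≤ 1 / 2)
    (hb : ‖F (((1 - d : ℝ) : ℂ) * pt θ₀)‖ ≤ C) :
    μ (Metric.closedBall θ₀ d) ≤ ENNReal.ofReal (8 * Real.pi * (C * ‖ξ‖ ^ 2) * d) := by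
  set z : ℂ := ((1 - d : ℝ) : ℂ) * pt θ₀ with hz
  have hzn : ‖z‖ = 1 - d := by
    rw [hz, norm_mul, pt_norm, mul_one, Complex.norm_real, Real.norm_of_nonneg (by linarith)]
  have hz1 : ‖z‖ < 1 := by rw [hzn]; linarith
  have h1 := hF.2 z (mem_ball_zero_iff.2 hz1)
  have h2 := qf_integral ξ σ hF.1 (kernel_integrable hz1 (VectorMeasure.variation (V := N →L[ℂ] N) σ))
  rw [← hμ] at h2
  have h3 : qf ξ (F z) = (2 * Real.pi)⁻¹ * ∫ θ, ((pt θ + z) / (pt θ - z)).re ∂μ := by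
    rw [h1, _root_.map_smul, h2, smul_eq_mul]
  have h4 : qf ξ (F z) ≤ C * ‖ξ‖ ^ 2 := by
    refine (qf_le ξ _).trans ?_
    gcongr
  have h5 : (4 * d)⁻¹ * μ.real (Metric.closedBall θ₀ d) ≤ ∫ θ, ((pt θ + z) / (pt θ - z)).re ∂μ := by
    have hint : Integrable (fun θ => ((pt θ + z) / (pt θ - z)).re) μ := (kernel_integrable hz1 μ).re
    have h6 : ∫ θ in Metric.closedBall θ₀ d, ((pt θ + z) / (pt θ - z)).re ∂μ ≤ ∫ θ, ((pt θ + z) / (pt θ - z)).re ∂μ := by
      refine setIntegral_le_integral hint (ae_of_all _ fun θ => ?_)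
      simp only [Pi.zero_apply]
      rw [kernel_re _ _ (pt_norm θ)]
      have : 0 ≤ 1 - ‖z‖ ^ 2 := by nlinarith [norm_nonneg z]
      positivity
    refine le_trans ?_ h6
    have h7 : ∫ θ in Metric.closedBall θ₀ d, (4 * d)⁻¹ ∂μ = (4 * d)⁻¹ * μ.real (Metric.closedBall θ₀ d) := by
      rw [MeasureTheory.setIntegral_const, smul_eq_mul]; ring
    rw [← h7]
    refine setIntegral_mono_on (integrable_const _).integrableOn hint.integrableOn Metric.isClosed_closedBall.measurableSet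
      fun θ hθ => ?_
    rw [kernel_re _ _ (pt_norm θ)]
    have h8 : ‖pt θ - z‖ ≤ 2 * d := by
      have e : pt θ - z = (pt θ - pt θ₀) + (d : ℂ) * pt θ₀ := by
        rw [hz]; push_cast; ring
      rw [e]
      refine (norm_add_le _ _).trans ?_
      rw [norm_mul, pt_norm, mul_one, Complex.norm_real, Real.norm_of_nonneg hd0.le]
      have := (pt_dist θ θ₀).trans (Metric.mem_closedBall.1 hθ)
      linarith
    have h9 : 0 < ‖pt θ - z‖ := norm_pos_iff.2 (pt_sub_ne hz1 θ)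
    rw [inv_eq_one_div, div_le_div_iff₀ (by positivity) (by positivity), hzn]
    have h10 : ‖pt θ - z‖ ^ 2 ≤ (2 * d) ^ 2 := by gcongr
    nlinarith [mul_pos hd0 hd0]
  have h6 : μ.real (Metric.closedBall θ₀ d) ≤ 8 * Real.pi * (C * ‖ξ‖ ^ 2) * d := by
    have hp := Real.pi_pos
    have h7 : ∫ θ, ((pt θ + z) / (pt θ - z)).re ∂μ ≤ 2 * Real.pi * (C * ‖ξ‖ ^ 2) := by
      rw [h3] at h4
      rw [inv_mul_le_iff₀ (by positivity)] at h4
      exact h4
    have h8 := h5.trans h7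
    rw [inv_mul_le_iff₀ (by positivity)] at h8
    calc μ.real (Metric.closedBall θ₀ d) ≤ 4 * d * (2 * Real.pi * (C * ‖ξ‖ ^ 2)) := h8
      _ = _ := by ring
  rw [← ENNReal.ofReal_toReal (measure_ne_top μ (Metric.closedBall θ₀ d))]
  exact ENNReal.ofReal_le_ofReal h6

/-- criterion: boundedness of `F` on the radii away from one point `θ₁`, no atom at `θ₁` -/
theorem ac_main' [Nontrivial N] {F : ℂ → N →L[ℂ] N} {σ : VectorMeasure TT (N →L[ℂ] N)} (hF : IsHerglotz F σ)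
    (h0 : F 0 = 1) (A : ℕ → Set TT) (hA : ∀ n, MeasurableSet (A n)) (θ₁ : TT) (hcov : ∀ θ, θ ≠ θ₁ → ∃ n, θ ∈ A n)
    (C : ℕ → ℝ) (hC0 : ∀ n, 0 ≤ C n)
    (hC : ∀ n, ∀ θ ∈ A n, ∀ r : ℝ, 0 < r → r < 1 → ‖F (r * pt θ)‖ ≤ C n)
    (hat : Tendsto (fun d : ℝ => ‖F (((1 - d : ℝ) : ℂ) * pt θ₁)‖ * d) (𝓝[>] 0) (𝓝 0)) :
    ∀ Δ, MeasurableSet Δ → volume Δ = 0 → σ Δ = 0 := by
  intro Δ hΔ hΔ0
  have hfin := finite_variation hF h0
  have hz : ∀ ξ : N, qf ξ (σ Δ) = 0 := by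
    intro ξ
    set μ := qm (V := N →L[ℂ] N) σ (qf ξ) (fun Δ => qf_nonneg ξ (hF.1 Δ)) with hμ
    have hle := qm_le (V := N →L[ℂ] N) σ (qf ξ) (fun Δ => qf_nonneg ξ (hF.1 Δ))
    have hμf : IsFiniteMeasure μ := by
      refine ⟨lt_of_le_of_lt (hle Set.univ) ?_⟩
      rw [Measure.smul_apply, smul_eq_mul]
      exact ENNReal.mul_lt_top ENNReal.ofReal_lt_top (measure_lt_top _ _)
    have h1 : ∀ n, μ (Δ ∩ A n) = 0 := by
      intro n
      refine restrict_le_hausdorff μ (A n) (hA n) (K := 8 * Real.pi * (C n * ‖ξ‖ ^ 2) + 1) ?_ ?_ hΔ hΔ0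
      · have := Real.pi_pos
        have := hC0 n
        positivity
      · intro θ₀ hθ₀ d hd0 hd
        refine (ball_mass hF ξ μ hμ (hC0 n) θ₀ (hC n θ₀ hθ₀) hd0 hd).trans ?_
        apply ENNReal.ofReal_le_ofReal
        nlinarith
    have h1' : μ {θ₁} = 0 := by
      have h2 : Tendsto (fun d : ℝ => ENNReal.ofReal (8 * Real.pi * (‖F (((1 - d : ℝ) : ℂ) * pt θ₁)‖ * ‖ξ‖ ^ 2) * d))
          (𝓝[>] 0) (𝓝 0) := by
        have h3 := (hat.const_mul (8 * Real.pi * ‖ξ‖ ^ 2))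
        rw [mul_zero] at h3
        have h4 := (ENNReal.continuous_ofReal.tendsto 0).comp h3
        rw [ENNReal.ofReal_zero] at h4
        refine h4.congr fun d => ?_
        simp only [Function.comp]
        congr 1; ring
      refine le_antisymm (ge_of_tendsto h2 ?_) bot_le
      have h3 : ∀ᶠ d : ℝ in 𝓝[>] 0, d < 1 / 2 := mem_nhdsWithin_of_mem_nhds (gt_mem_nhds (by norm_num))
      filter_upwards [self_mem_nhdsWithin, h3] with d hd0 hd
      refine (measure_mono ?_).trans (ball_mass' hF ξ μ hμ (norm_nonneg _) θ₁ hd0 hd.le le_rfl)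
      exact Set.singleton_subset_iff.2 (Metric.mem_closedBall_self (le_of_lt hd0))
    have h2 : μ Δ = 0 := by
      have : Δ ⊆ (⋃ n, Δ ∩ A n) ∪ {θ₁} := by
        intro θ hθ
        by_cases h : θ = θ₁
        · right; exact h
        · left
          obtain ⟨n, hn⟩ := hcov θ h
          exact Set.mem_iUnion.2 ⟨n, hθ, hn⟩
      refine measure_mono_null this ?_
      exact measure_union_null (measure_iUnion_null h1) h1'
    rw [hμ, qm_apply (V := N →L[ℂ] N) σ (qf ξ) _ hΔ] at h2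
    exact le_antisymm (ENNReal.ofReal_eq_zero.1 h2) (qf_nonneg ξ (hF.1 Δ))
  have hpos := hF.1 Δ
  have h3 : ∀ ξ : N, inner ℂ ((σ Δ) ξ) ξ = 0 := by
    intro ξ
    have h4 := hpos.inner_nonneg_left ξ
    rw [Complex.nonneg_iff] at h4
    apply Complex.ext
    · have h5 := hz ξ
      rw [qf_apply, ← inner_conj_symm, Complex.conj_re] at h5
      simpa using h5
    · simpa using h4.2.symm
  have h4 : ((σ Δ : N →L[ℂ] N) : N →ₗ[ℂ] N) = 0 := (inner_map_self_eq_zero _).1 h3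
  ext ξ
  exact congrArg (fun T : N →ₗ[ℂ] N => T ξ) h4

/-- the counterexample -/
noncomputable def chiA (e : M) (f : N) (z : ℂ) : M →L[ℂ] N := cc z • PP e f

lemma chiA_norm (e : M) (f : N) (he : ‖e‖ = 1) (hf : ‖f‖ = 1) (z : ℂ) : ‖chiA e f z‖ ≤ ‖cc z‖ := by
  unfold chiA
  rw [norm_smul]
  have h := PP_norm e f he hf
  calc ‖cc z‖ * ‖PP e f‖ ≤ ‖cc z‖ * 1 := by gcongr
    _ = _ := mul_one _

lemma chiA_inB0 (e : M) (f : N) (he : ‖e‖ = 1) (hf : ‖f‖ = 1) : InB0 (chiA e f) := by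
  refine ⟨⟨?_, fun z hz => ?_⟩, ?_⟩
  · intro z hz
    unfold chiA
    exact ((cc_differentiableAt (mem_ball_zero_iff.1 hz)).smul_const _).differentiableWithinAt
  · obtain ⟨h1, h2, h3⟩ := inside (mem_ball_zero_iff.1 hz)
    exact (chiA_norm e f he hf z).trans (cc_lt_one h1 h2 h3).le
  · unfold chiA; rw [cc_zero, zero_smul]

theorem chiA_inBa [Nontrivial N] (e : M) (f : N) (he : ‖e‖ = 1) (hf : ‖f‖ = 1) : InBa (chiA e f) := by
  refine ⟨chiA_inB0 e f he hf, fun ε hε σ hσ => ?_⟩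
  set A : ℕ → Set TT := fun n => {θ | ∀ r : ℝ, 0 < r → r < 1 → ‖cay (r * pt θ)‖ ≤ n} with hA
  set q : ℕ → ℝ := fun n => Real.sqrt (1 - (kap / 2 * Real.exp (-(2 * (n + 1 : ℝ) + 1))) ^ 2) with hq
  have hq1 : ∀ n, q n < 1 := by
    intro n
    have h1 : 0 < kap / 2 * Real.exp (-(2 * (n + 1 : ℝ) + 1)) := by have := kap_pos; positivity
    have h2 : Real.sqrt (1 - (kap / 2 * Real.exp (-(2 * (n + 1 : ℝ) + 1))) ^ 2) < Real.sqrt 1 :=
      Real.sqrt_lt_sqrt_iff_of_pos one_pos |>.2 (by nlinarith)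
    rwa [Real.sqrt_one] at h2
  refine ac_main' hσ (FF_zero (chiA_inB0 e f he hf).2) A (fun n => ?_) 0 (fun θ hθ => ?_)
    (fun n => 2 / (1 - q n)) (fun n => ?_) (fun n θ hθ r hr0 hr1 => ?_) ?_
  · have : A n = ⋂ r : ℝ, ⋂ _ : 0 < r, ⋂ _ : r < 1, {θ | ‖cay (r * pt θ)‖ ≤ n} := by
      ext θ; simp [hA]
    rw [this]
    refine IsClosed.measurableSet (isClosed_iInter fun r => isClosed_iInter fun hr0 => isClosed_iInter fun hr1 => ?_)
    refine isClosed_le ?_ continuous_const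
    refine continuous_norm.comp ?_
    rw [continuous_iff_continuousAt]
    intro θ
    have hc : ContinuousAt (fun θ : TT => (r : ℂ) * pt θ) θ := (continuous_const.mul pt_continuous).continuousAt
    refine ContinuousAt.comp (f := fun θ : TT => (r : ℂ) * pt θ) (g := cay) (cay_continuousAt ?_) hc
    intro h
    have : ‖(r : ℂ) * pt θ‖ = 1 := by rw [h]; simp
    rw [norm_mul, pt_norm, mul_one, Complex.norm_real, Real.norm_of_nonneg hr0.le] at this
    linarith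
  · have h1 : pt θ ≠ 1 := by
      intro h
      apply hθ
      unfold pt at h
      have h2 : AddCircle.toCircle θ = 1 := by
        apply Subtype.ext
        exact h
      rw [← AddCircle.toCircle_zero] at h2
      exact AddCircle.injective_toCircle Real.two_pi_pos.ne' h2
    obtain ⟨n, hn⟩ := exists_nat_ge (4 / ‖1 - pt θ‖)
    exact ⟨n, fun r hr0 hr1 => (cay_norm_le (pt_norm θ) h1 hr0.le hr1.le).trans hn⟩
  · have := hq1 n
    have : 0 < 1 - q n := by linarith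
    positivity
  · have hn : ‖(r : ℂ) * pt θ‖ = r := by
      rw [norm_mul, pt_norm, mul_one, Complex.norm_real, Real.norm_of_nonneg hr0.le]
    have hn1 : ‖(r : ℂ) * pt θ‖ < 1 := by rw [hn]; exact hr1
    obtain ⟨h1, h2, h3⟩ := inside hn1
    refine FF_bound (hq1 n) ?_ (hε.2 _ (mem_ball_zero_iff.2 hn1))
    refine (chiA_norm e f he hf _).trans ?_
    refine Real.le_sqrt_of_sq_le (cc_le h1 h2 h3 ?_)
    have h4 : ‖K (r * pt θ)‖ ^ 2 ≤ n := by rw [K_norm_sq]; exact hθ r hr0 hr1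
    have h5 : (0:ℝ) ≤ n := Nat.cast_nonneg n
    nlinarith [norm_nonneg (K (r * pt θ))]
  · have hpt : pt (0 : TT) = 1 := by
      unfold pt; rw [AddCircle.toCircle_zero]; rfl
    have hbs := be_sq_lt
    set c : ℝ := (1 - ‖be‖ ^ 2) / 512 with hc
    have hc0 : 0 < c := by positivity
    have h1 : Tendsto (fun d : ℝ => 2 / c * Real.sqrt d) (𝓝[>] 0) (𝓝 0) := by
      have : Tendsto (fun d : ℝ => 2 / c * Real.sqrt d) (𝓝 0) (𝓝 (2 / c * Real.sqrt 0)) :=
        (continuous_const.mul Real.continuous_sqrt).tendsto 0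
      rw [Real.sqrt_zero, mul_zero] at this
      exact this.mono_left nhdsWithin_le_nhds
    refine squeeze_zero' ?_ ?_ h1
    · filter_upwards [self_mem_nhdsWithin] with d hd
      exact mul_nonneg (norm_nonneg _) (le_of_lt hd)
    · have h3 : ∀ᶠ d : ℝ in 𝓝[>] 0, d < 1 / 8 := mem_nhdsWithin_of_mem_nhds (gt_mem_nhds (by norm_num))
      filter_upwards [self_mem_nhdsWithin, h3] with d hd0' hd
      have hd0 : 0 < d := hd0'
      have hcr := cc_radial hd0 hd.le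
      have hsd : 0 < Real.sqrt d := Real.sqrt_pos.2 hd0
      have hn1 : ‖((1 - d : ℝ) : ℂ)‖ < 1 := by
        rw [Complex.norm_real, Real.norm_of_nonneg (by linarith)]; linarith
      rw [hpt, mul_one]
      have hlt : 1 - c * Real.sqrt d < 1 := by nlinarith
      have h5 := FF_bound (χ := chiA e f) (ε := ε) (z := ((1 - d : ℝ) : ℂ)) hlt ((chiA_norm e f he hf _).trans hcr)
        (hε.2 _ (mem_ball_zero_iff.2 hn1))
      have h6 : 1 - (1 - c * Real.sqrt d) = c * Real.sqrt d := by ring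
      rw [h6] at h5
      calc ‖FF (chiA e f) ε ((1 - d : ℝ) : ℂ)‖ * d ≤ 2 / (c * Real.sqrt d) * d := by gcongr
        _ = 2 / c * Real.sqrt d := by
            have : d = Real.sqrt d * Real.sqrt d := (Real.mul_self_sqrt hd0.le).symm
            field_simp
            nlinarith

end Pool.Agent.TH606.Arov
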