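import Pool.Agent.Helper630.Szego.Defs

/-!
# Condition (4): outer factors, the Hankel operator and the `ρ`-regularised functions
-/

open MeasureTheory Filter Topology ContinuousLinearMap
open Pool.Agent.Helper630.Szego

namespace Pool.Agent.TH606.Arov

open scoped ENNReal

section generic

variable {N M H K : Type*} [NormedAddCommGroup N] [InnerProductSpace ℂ N] [CompleteSpace N]
  [NormedAddCommGroup M] [InnerProductSpace ℂ M] [CompleteSpace M]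
  [NormedAddCommGroup H] [InnerProductSpace ℂ H] [CompleteSpace H]
  [NormedAddCommGroup K] [InnerProductSpace ℂ K] [CompleteSpace K]

/-- `(I - ρ² T* T)⁻¹` for an operator `T` between Hilbert spaces. -/
noncomputable def resolv (T : H →L[ℂ] K) (ρ : ℝ) : H →L[ℂ] H :=
  Ring.inverse (1 - ((ρ ^ 2 : ℝ) : ℂ) • (adjoint T).comp T)

/-- For the isometric embedding `e : N → H`, `ξ ↦ e_ξ`, with range `N₀`: the compression `P_{N₀} R | N₀` of an operator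
`R` on `H`, read as an operator on `N` through `ξ ↦ e_ξ`, that is `e* R e`. -/
noncomputable def compress (e : N →L[ℂ] H) (R : H →L[ℂ] H) : N →L[ℂ] N := (adjoint e).comp (R.comp e)

/-- The positive square root of `[P_{N₀} (I - ρ² T* T)⁻¹ | N₀]⁻¹`. It is `N^{1/2}(ρ)` for `T = Γ` and `M^{1/2}(ρ)`
for `T = Γ*`. -/
noncomputable def half (e : N →L[ℂ] H) (T : H →L[ℂ] K) (ρ : ℝ) : N →L[ℂ] N :=
  CFC.sqrt (Ring.inverse (compress e (resolv T ρ)))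

/-- `ξ ↦ (I - ρ² T* T)⁻¹ R^{1/2}(ρ) e_ξ`, where `R^{1/2}(ρ) = half e T ρ`. -/
noncomputable def regular (e : N →L[ℂ] H) (T : H →L[ℂ] K) (ρ : ℝ) : N →L[ℂ] H :=
  (resolv T ρ).comp (e.comp (half e T ρ))

/-- `η ↦ T* (I - ρ² T T*)⁻¹ M^{1/2}(ρ) e_η`, where `M^{1/2}(ρ) = half e T* ρ`, for the embedding `e : M → K`. -/
noncomputable def regularStar (e : M →L[ℂ] K) (T : H →L[ℂ] K) (ρ : ℝ) : M →L[ℂ] H :=
  (adjoint T).comp (regular e (adjoint T) ρ)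

end generic

/-- The block sequence space `ℓ²(N)`. -/
abbrev L2 (N : Type*) [NormedAddCommGroup N] : Type _ := lp (fun _ : ℕ => N) 2

variable {N M : Type*} [NormedAddCommGroup N] [InnerProductSpace ℂ N] [CompleteSpace N]
  [NormedAddCommGroup M] [InnerProductSpace ℂ M] [CompleteSpace M]

/-- `ξ ↦ e_ξ = (ξ, 0, 0, …)`, from `N` onto `N₀ ⊆ ℓ²(N)`. -/
noncomputable def emb (N : Type*) [NormedAddCommGroup N] [InnerProductSpace ℂ N] : N →L[ℂ] L2 N :=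
  lp.singleContinuousLinearMap ℂ (fun _ : ℕ => N) 2 0

/-- The `j`-th coordinate (counted from `0`) of a sequence in `ℓ²(N)`. -/
noncomputable def coord (N : Type*) [NormedAddCommGroup N] [InnerProductSpace ℂ N] (j : ℕ) : L2 N →L[ℂ] N :=
  lp.evalCLM ℂ (fun _ : ℕ => N) 2 j

/-- `h₊(z) = ∑_{j ≥ 1} ξ_j z^(j-1)` for `h = (ξ_j)_{j ≥ 1}` in `ℓ²(N)`, as an operator `ℓ²(N) → N` (for `|z| < 1`;
the coordinates are counted from `0` here). -/
noncomputable def plusAt (N : Type*) [NormedAddCommGroup N] [InnerProductSpace ℂ N] [CompleteSpace N] (z : ℂ) :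
    L2 N →L[ℂ] N := ∑' j : ℕ, z ^ j • coord N j

/-- `P₊(z, ρ) ξ = [(I - ρ² Γ* Γ)⁻¹ N^{1/2}(ρ) e_ξ]₊(z)`. -/
noncomputable def Pplus (Γ : L2 N →L[ℂ] L2 M) (z : ℂ) (ρ : ℝ) : N →L[ℂ] N :=
  (plusAt N z).comp (regular (emb N) Γ ρ)

/-- `q₊(z, ρ) η = ρ z [Γ* (I - ρ² Γ Γ*)⁻¹ M^{1/2}(ρ) e_η]₊(z)`. -/
noncomputable def qplus (Γ : L2 N →L[ℂ] L2 M) (z : ℂ) (ρ : ℝ) : M →L[ℂ] N :=
  (ρ * z) • (plusAt N z).comp (regularStar (emb M) Γ ρ)

/-- Condition (4) for `χ` with Hankel operator `Γ`: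
`lim_{ρ → 1⁻} P₊(z, ρ)⁻¹ q₊(z, ρ) = χ(z)` for every `z` in the open unit disc. -/
def Condition4 (χ : ℂ → M →L[ℂ] N) (Γ : L2 N →L[ℂ] L2 M) : Prop :=
  ∀ z ∈ Metric.ball (0:ℂ) 1,
    Tendsto (fun ρ : ℝ => (Ring.inverse (Pplus Γ z ρ)).comp (qplus Γ z ρ)) (𝓝[<] 1) (𝓝 (χ z))

/-- The Fourier coefficient `(2π)⁻¹ ∫ ζ^(-n) f(ζ) |dζ|` of an operator function on the circle. -/
noncomputable def fourierOp (f : TT → N →L[ℂ] M) (n : ℤ) : N →L[ℂ] M :=
  ((2 * Real.pi)⁻¹ : ℝ) • ∫ θ, (pt θ) ^ (-n) • f θ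

/-- `Γ` is the Hankel operator with block matrix `(f̂₀(-j-k+1))_{j,k ≥ 1}` (indices counted from `0` here). -/
def IsHankel (f₀ : TT → N →L[ℂ] M) (Γ : L2 N →L[ℂ] L2 M) : Prop :=
  ∀ (j k : ℕ) (ξ : N), coord M j (Γ (lp.single 2 k ξ)) = fourierOp f₀ (-(j + k + 1 : ℕ)) ξ

/-- `A ∈ 𝔹(N,N)`, with boundary function `A'`, is outer and non-negative at the origin. For a bounded analytic
function with values operators on a finite dimensional space, outer means that its determinant is a scalar outer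
function: `det A(0) ≠ 0` and `log |det A(0)|` is the mean value of `log |det A'|` over the circle. -/
def IsOuterNonneg (A : ℂ → N →L[ℂ] N) (A' : TT → N →L[ℂ] N) : Prop :=
  InB A ∧ IsBoundary A A' ∧ (A 0).IsPositive ∧ ContinuousLinearMap.det (A 0) ≠ 0 ∧
    Integrable (fun θ => Real.log ‖ContinuousLinearMap.det (A' θ)‖) ∧
    Real.log ‖ContinuousLinearMap.det (A 0)‖ = (2 * Real.pi)⁻¹ * ∫ θ, Real.log ‖ContinuousLinearMap.det (A' θ)‖

/-- `B B* = I - X X*` -/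
def IsCofactor (X : M →L[ℂ] N) (B : N →L[ℂ] N) : Prop := 1 - X.comp (adjoint X) = B.comp (adjoint B)

/-- The outer factors of `χ`, with boundary function `X`. `A = P₊⁻¹` with boundary values `A'`, and
`D(z) = (P₋⁻¹(1/z̄))*` with boundary values `D'`, so that `P₋⁻¹ = D'*` on the circle:
`I - χ χ* = P₊⁻¹ (P₊⁻¹)*` and `I - χ* χ = P₋⁻¹ (P₋⁻¹)*` almost everywhere on the circle. -/
def IsFactors (X : TT → M →L[ℂ] N) (A : ℂ → N →L[ℂ] N) (A' : TT → N →L[ℂ] N) (D : ℂ → M →L[ℂ] M)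
    (D' : TT → M →L[ℂ] M) : Prop :=
  IsOuterNonneg A A' ∧ IsOuterNonneg D D' ∧ (∀ᵐ θ, IsCofactor (X θ) (A' θ)) ∧
    (∀ᵐ θ, IsCofactor (adjoint (X θ)) (adjoint (D' θ)))

/-- `f₀ = q₋ P₊⁻¹` with `q₋ = P₋ χ*`, where `P₋ = (D'*)⁻¹` and `P₊⁻¹ = A'` on the circle. -/
noncomputable def symbolF (X : TT → M →L[ℂ] N) (A' : TT → N →L[ℂ] N) (D' : TT → M →L[ℂ] M) (θ : TT) : N →L[ℂ] M :=
  (Ring.inverse (adjoint (D' θ))).comp ((adjoint (X θ)).comp (A' θ))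

end Pool.Agent.TH606.Arov
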