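import Pool.Agent.TH606.Arov.KFun

/-!
# The pair on the disc
-/

open Complex Filter Topology
open Pool.Agent.Helper630.Szego

namespace Pool.Agent.TH606.Arov

noncomputable def K (z : ℂ) : ℂ := tt (cay z)

lemma K_sq (z : ℂ) : K z ^ 2 = I * cay z := tt_sq _

lemma K_norm_sq (z : ℂ) : ‖K z‖ ^ 2 = ‖cay z‖ := tt_norm_sq _

lemma one_sub_ne {z : ℂ} (hz : ‖z‖ < 1) : (1:ℂ) - z ≠ 0 := by
  intro h
  have : z = 1 := by linear_combination -h
  rw [this] at hz; simp at hz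

lemma K_quad {z : ℂ} (hz : 0 ≤ (cay z).re) : 0 ≤ (K z).re ∧ 0 ≤ (K z).im := tt_nonneg hz

lemma K_ne {z : ℂ} (hz : cay z ≠ 0) : K z ≠ 0 := by
  intro h
  have := K_sq z
  rw [h] at this
  have h2 : I * cay z = 0 := by rw [← this]; ring
  exact hz ((mul_eq_zero.1 h2).resolve_left I_ne_zero)

/-- everything needed about a point of the open disc -/
lemma inside {z : ℂ} (hz : ‖z‖ < 1) : 0 ≤ (K z).re ∧ 0 ≤ (K z).im ∧ K z ≠ 0 := by
  have h1 := cay_re_pos hz
  have h2 : cay z ≠ 0 := by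
    intro h; rw [h] at h1; simp at h1
  exact ⟨(K_quad h1.le).1, (K_quad h1.le).2, K_ne h2⟩

lemma boundary_cay_re {z : ℂ} (hz : ‖z‖ = 1) : (cay z).re = 0 := by
  rw [cay_re, hz]; simp

lemma boundary_cay_ne {z : ℂ} (h1 : z ≠ 1) (h2 : z ≠ -1) : cay z ≠ 0 := by
  unfold cay
  refine div_ne_zero ?_ (sub_ne_zero.2 (Ne.symm h1))
  intro h
  exact h2 (by linear_combination h)

/-- everything needed about a point of the circle -/
lemma onCircle {z : ℂ} (hz : ‖z‖ = 1) (h1 : z ≠ 1) (h2 : z ≠ -1) :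
    0 ≤ (K z).re ∧ 0 ≤ (K z).im ∧ K z ≠ 0 ∧ ((K z).re = 0 ∨ (K z).im = 0) := by
  have h3 := boundary_cay_re hz
  have h4 := K_quad (z := z) h3.ge
  refine ⟨h4.1, h4.2, K_ne (boundary_cay_ne h1 h2), ?_⟩
  have h5 := tt_re_mul_im (cay z)
  rw [h3] at h5
  have h6 : (K z).re * (K z).im = 0 := by unfold K; linarith
  exact mul_eq_zero.1 h6

lemma K_differentiableAt {z : ℂ} (hz : ‖z‖ < 1) : DifferentiableAt ℂ K z := by
  have h1 : DifferentiableAt ℂ cay z := by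
    unfold cay
    exact DifferentiableAt.div (by fun_prop) (by fun_prop) (one_sub_ne hz)
  unfold K
  exact DifferentiableAt.comp (g := tt) z (tt_differentiableAt (cay_re_pos hz)) h1

lemma K_continuousAt {z : ℂ} (hz : ‖z‖ ≤ 1) (h1 : z ≠ 1) : ContinuousAt K z := by
  have h2 : 0 ≤ (cay z).re := by
    rw [cay_re]
    have : 0 ≤ 1 - ‖z‖ ^ 2 := by nlinarith [norm_nonneg z]
    positivity
  unfold K
  exact ContinuousAt.comp (g := tt) (tt_continuousAt h2) (cay_continuousAt h1)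

lemma radial_tendsto (z : ℂ) : Tendsto (fun r : ℝ => (r : ℂ) * z) (𝓝[<] 1) (𝓝 z) := by
  have : Continuous (fun r : ℝ => (r : ℂ) * z) := by fun_prop
  have h := this.tendsto 1
  rw [Complex.ofReal_one, one_mul] at h
  exact h.mono_left nhdsWithin_le_nhds

lemma dist_radial {z : ℂ} (hz : ‖z‖ = 1) {r : ℝ} (h0 : 0 ≤ r) (h1 : r ≤ 1) : ‖1 - z‖ ≤ 2 * ‖1 - r * z‖ := by
  have e : 1 - z = (1 - r * z) - ((1 - r : ℝ) : ℂ) * z := by push_cast; ring
  have h2 : ‖1 - z‖ ≤ ‖1 - r * z‖ + (1 - r) := by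
    rw [e]
    refine (norm_sub_le _ _).trans ?_
    rw [norm_mul, hz, mul_one, Complex.norm_real, Real.norm_of_nonneg (by linarith)]
  have h3 : 1 - r ≤ ‖1 - r * z‖ := by
    have := norm_sub_norm_le (1:ℂ) (r * z)
    rw [norm_one, norm_mul, hz, mul_one, Complex.norm_real, Real.norm_of_nonneg h0] at this
    exact this
  linarith

lemma cay_norm_le {z : ℂ} (hz : ‖z‖ = 1) (hz1 : z ≠ 1) {r : ℝ} (h0 : 0 ≤ r) (h1 : r ≤ 1) :
    ‖cay (r * z)‖ ≤ 4 / ‖1 - z‖ := by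
  have h2 : 0 < ‖1 - z‖ := norm_pos_iff.2 (sub_ne_zero.2 (Ne.symm hz1))
  have h3 := dist_radial hz h0 h1
  have h4 : 0 < ‖1 - r * z‖ := by linarith
  unfold cay
  rw [norm_div, div_le_div_iff₀ h4 h2]
  have h5 : ‖1 + r * z‖ ≤ 2 := by
    refine (norm_add_le _ _).trans ?_
    rw [norm_one, norm_mul, hz, mul_one, Complex.norm_real, Real.norm_of_nonneg h0]; linarith
  nlinarith

/-- the two functions -/
noncomputable def bb (z : ℂ) : ℂ := fb (K z)
noncomputable def aa (z : ℂ) : ℂ := fa (K z)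
/-- the value of `b` at the origin -/
noncomputable def be : ℂ := bb 0
noncomputable def ga : ℂ := (starRingEnd ℂ) (aa 0) / ‖aa 0‖
noncomputable def kap : ℝ := Real.sqrt (1 - ‖be‖ ^ 2)
noncomputable def dd (z : ℂ) : ℂ := 1 - (starRingEnd ℂ) be * bb z

/-- the Schur function `c` of the counterexample -/
noncomputable def cc (z : ℂ) : ℂ := (bb z - be) / dd z
/-- its outer companion -/
noncomputable def oo (z : ℂ) : ℂ := ga * kap * aa z / dd z
/-- the analytic function with boundary values `conj c * o / conj o` -/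
noncomputable def gf (z : ℂ) : ℂ := ga ^ 2 * ((starRingEnd ℂ) be * (uu (K z) * vv (K z)) - bb z) / dd z

lemma be_lt : ‖be‖ < 1 := by
  obtain ⟨h1, h2, h3⟩ := inside (z := 0) (by simp)
  exact fb_lt_one h1 h2 h3

lemma be_sq_lt : 0 < 1 - ‖be‖ ^ 2 := by nlinarith [be_lt, norm_nonneg be]

lemma kap_pos : 0 < kap := Real.sqrt_pos.2 be_sq_lt

lemma kap_sq : kap ^ 2 = 1 - ‖be‖ ^ 2 := Real.sq_sqrt be_sq_lt.le

lemma aa0_ne : aa 0 ≠ 0 := by
  obtain ⟨h1, h2, h3⟩ := inside (z := 0) (by simp)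
  exact fa_ne h1 h2 h3

lemma ga_norm : ‖ga‖ = 1 := by
  unfold ga
  rw [norm_div, Complex.norm_real, norm_norm, RCLike.norm_conj]
  exact div_self (norm_ne_zero_iff.2 aa0_ne)

lemma dd_ge {z : ℂ} (h : ‖bb z‖ ≤ 1) : 1 - ‖be‖ ≤ ‖dd z‖ := by
  unfold dd
  have h1 := norm_sub_norm_le (1:ℂ) ((starRingEnd ℂ) be * bb z)
  rw [norm_one, norm_mul, RCLike.norm_conj] at h1
  nlinarith [norm_nonneg be, norm_nonneg (bb z)]

lemma dd_ne {z : ℂ} (h : ‖bb z‖ ≤ 1) : dd z ≠ 0 := by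
  have h1 := dd_ge h
  have h2 := be_lt
  exact norm_pos_iff.1 (by linarith)

lemma dd_le {z : ℂ} (h : ‖bb z‖ ≤ 1) : ‖dd z‖ ≤ 2 := by
  unfold dd
  refine (norm_sub_le _ _).trans ?_
  rw [norm_one, norm_mul, RCLike.norm_conj]
  nlinarith [norm_nonneg be, norm_nonneg (bb z), be_lt]

/-- the Möbius identity -/
lemma mobius (z : ℂ) : ‖dd z‖ ^ 2 - ‖bb z - be‖ ^ 2 = (1 - ‖be‖ ^ 2) * (1 - ‖bb z‖ ^ 2) := by
  unfold dd
  rw [Complex.sq_norm, Complex.sq_norm, Complex.sq_norm, Complex.sq_norm, Complex.normSq_apply, Complex.normSq_apply,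
    Complex.normSq_apply, Complex.normSq_apply]
  simp only [sub_re, one_re, mul_re, conj_re, conj_im, sub_im, one_im, mul_im]
  ring

lemma one_sub_cc {z : ℂ} (h : ‖bb z‖ ≤ 1) : 1 - ‖cc z‖ ^ 2 = (1 - ‖be‖ ^ 2) * (1 - ‖bb z‖ ^ 2) / ‖dd z‖ ^ 2 := by
  have hd : 0 < ‖dd z‖ := norm_pos_iff.2 (dd_ne h)
  unfold cc
  rw [norm_div, div_pow, ← mobius z]
  field_simp

lemma oo_norm_sq (z : ℂ) : ‖oo z‖ ^ 2 = (1 - ‖be‖ ^ 2) * ‖aa z‖ ^ 2 / ‖dd z‖ ^ 2 := by
  unfold oo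
  rw [norm_div, norm_mul, norm_mul, ga_norm, one_mul, Complex.norm_real, Real.norm_of_nonneg kap_pos.le, div_pow, mul_pow,
    kap_sq]

lemma bb_le {z : ℂ} (h1 : 0 ≤ (K z).re) (h2 : 0 ≤ (K z).im) : ‖bb z‖ ≤ 1 := by
  have h := ab_le h1 h2
  have : ‖fb (K z)‖ ^ 2 ≤ 1 := by nlinarith [norm_nonneg (fa (K z))]
  unfold bb
  nlinarith [norm_nonneg (fb (K z))]

lemma co_le {z : ℂ} (h1 : 0 ≤ (K z).re) (h2 : 0 ≤ (K z).im) : ‖oo z‖ ^ 2 ≤ 1 - ‖cc z‖ ^ 2 := by
  have hb := bb_le h1 h2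
  rw [one_sub_cc hb, oo_norm_sq]
  have h := ab_le h1 h2
  have h3 := be_sq_lt
  gcongr
  unfold aa bb; linarith

lemma co_eq {z : ℂ} (hz : ‖z‖ = 1) (h1 : z ≠ 1) (h2 : z ≠ -1) : ‖oo z‖ ^ 2 = 1 - ‖cc z‖ ^ 2 := by
  obtain ⟨h3, h4, h5, h6⟩ := onCircle hz h1 h2
  have hb := bb_le h3 h4
  rw [one_sub_cc hb, oo_norm_sq]
  have h := ab_eq h3 h4 h5 h6
  congr 2
  unfold aa bb; linarith

lemma oo_ge {z : ℂ} (h1 : 0 ≤ (K z).re) (h2 : 0 ≤ (K z).im) (h3 : K z ≠ 0) :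
    kap / 2 * Real.exp (-(2 * ‖K z‖ + 1)) ≤ ‖oo z‖ := by
  have hb := bb_le h1 h2
  have hd : 0 < ‖dd z‖ := norm_pos_iff.2 (dd_ne hb)
  have h4 := fa_ge h1 h2 h3
  unfold oo
  rw [norm_div, norm_mul, norm_mul, ga_norm, one_mul, Complex.norm_real, Real.norm_of_nonneg kap_pos.le, le_div_iff₀ hd]
  have h5 := dd_le hb
  have h6 := kap_pos
  have h7 := Real.exp_pos (-(2 * ‖K z‖ + 1))
  calc kap / 2 * Real.exp (-(2 * ‖K z‖ + 1)) * ‖dd z‖ ≤ kap / 2 * Real.exp (-(2 * ‖K z‖ + 1)) * 2 := by gcongr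
    _ = kap * Real.exp (-(2 * ‖K z‖ + 1)) := by ring
    _ ≤ kap * ‖aa z‖ := by unfold aa; gcongr

lemma oo_le_one {z : ℂ} (h1 : 0 ≤ (K z).re) (h2 : 0 ≤ (K z).im) : ‖oo z‖ ≤ 1 := by
  have := co_le h1 h2
  have h3 : ‖oo z‖ ^ 2 ≤ 1 := by nlinarith [norm_nonneg (cc z)]
  nlinarith [norm_nonneg (oo z)]

lemma oo_ne {z : ℂ} (h1 : 0 ≤ (K z).re) (h2 : 0 ≤ (K z).im) (h3 : K z ≠ 0) : oo z ≠ 0 := by
  have h := oo_ge h1 h2 h3
  have h4 : 0 < kap / 2 * Real.exp (-(2 * ‖K z‖ + 1)) := by have := kap_pos; positivity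
  exact norm_pos_iff.1 (h4.trans_le h)

lemma cc_lt_one {z : ℂ} (h1 : 0 ≤ (K z).re) (h2 : 0 ≤ (K z).im) (h3 : K z ≠ 0) : ‖cc z‖ < 1 := by
  have h4 := co_le h1 h2
  have h5 := norm_pos_iff.2 (oo_ne h1 h2 h3)
  nlinarith [norm_nonneg (cc z), pow_pos h5 2]

/-- uniform bound of `c` where `K` is bounded -/
lemma cc_le {z : ℂ} (h1 : 0 ≤ (K z).re) (h2 : 0 ≤ (K z).im) (h3 : K z ≠ 0) {R : ℝ} (hR : ‖K z‖ ≤ R) :
    ‖cc z‖ ^ 2 ≤ 1 - (kap / 2 * Real.exp (-(2 * R + 1))) ^ 2 := by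
  have h4 := co_le h1 h2
  have h5 := oo_ge h1 h2 h3
  have h6 : kap / 2 * Real.exp (-(2 * R + 1)) ≤ kap / 2 * Real.exp (-(2 * ‖K z‖ + 1)) := by
    have := kap_pos
    have h7 : Real.exp (-(2 * R + 1)) ≤ Real.exp (-(2 * ‖K z‖ + 1)) := Real.exp_le_exp.2 (by linarith)
    gcongr
  have h8 : 0 ≤ kap / 2 * Real.exp (-(2 * R + 1)) := by have := kap_pos; positivity
  have h9 : (kap / 2 * Real.exp (-(2 * R + 1))) ^ 2 ≤ ‖oo z‖ ^ 2 := by
    have := h6.trans h5
    gcongr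
  linarith

lemma cc_zero : cc 0 = 0 := by
  unfold cc be; simp

lemma dd_zero : dd 0 = ((1 - ‖be‖ ^ 2 : ℝ) : ℂ) := by
  unfold dd
  have : bb 0 = be := rfl
  rw [this, Complex.conj_mul']; push_cast; rfl

lemma oo_zero : oo 0 = ((kap * ‖aa 0‖ / (1 - ‖be‖ ^ 2) : ℝ) : ℂ) := by
  unfold oo
  rw [dd_zero]
  have h1 : ga * aa 0 = ‖aa 0‖ := by
    unfold ga
    have h2 : (‖aa 0‖ : ℂ) ≠ 0 := by exact_mod_cast norm_ne_zero_iff.2 aa0_ne
    rw [div_mul_eq_mul_div, Complex.conj_mul', sq, mul_div_assoc, div_self h2, mul_one]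
  have : ga * kap * aa 0 = (kap : ℂ) * (ga * aa 0) := by ring
  rw [this, h1]; push_cast; rfl

lemma oo_zero_pos : 0 < kap * ‖aa 0‖ / (1 - ‖be‖ ^ 2) := by
  have h1 := kap_pos
  have h2 := be_sq_lt
  have h3 := norm_pos_iff.2 aa0_ne
  positivity

/-- the boundary identity `conj c * o = g * conj o` -/
lemma gf_boundary {z : ℂ} (hz : ‖z‖ = 1) (h1 : z ≠ 1) (h2 : z ≠ -1) :
    (starRingEnd ℂ) (cc z) * oo z = gf z * (starRingEnd ℂ) (oo z) := by
  obtain ⟨h3, h4, h5, h6⟩ := onCircle hz h1 h2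
  have hb := bb_le h3 h4
  have hd := dd_ne hb
  have hdc : (starRingEnd ℂ) (dd z) ≠ 0 := (map_ne_zero _).2 hd
  obtain ⟨i1, i2⟩ := boundary_id (uu_eq_one h3 h4 h5 h6) (vv_eq_one h3 h4 h5 h6)
  have i1' : (starRingEnd ℂ) (aa z) * (uu (K z) * vv (K z)) = -aa z := i1
  have i2' : (starRingEnd ℂ) (bb z) * (uu (K z) * vv (K z)) = bb z := i2
  have hg : (starRingEnd ℂ) ga * ga = 1 := by
    rw [Complex.conj_mul', ga_norm]; norm_num
  have e1 : (starRingEnd ℂ) (cc z) * oo z = ((starRingEnd ℂ) (bb z) - (starRingEnd ℂ) be) * (ga * kap * aa z) /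
      ((starRingEnd ℂ) (dd z) * dd z) := by
    unfold cc oo
    rw [map_div₀, map_sub, div_mul_div_comm]
  have e2 : gf z * (starRingEnd ℂ) (oo z) = (ga ^ 2 * ((starRingEnd ℂ) be * (uu (K z) * vv (K z)) - bb z)) *
      ((starRingEnd ℂ) ga * kap * (starRingEnd ℂ) (aa z)) / ((starRingEnd ℂ) (dd z) * dd z) := by
    unfold gf oo
    rw [map_div₀, map_mul, map_mul, Complex.conj_ofReal, div_mul_div_comm]
    congr 1; ring
  rw [e1, e2]
  congr 1
  have e3 : ga ^ 2 * (starRingEnd ℂ) ga = ga := by linear_combination ga * hg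
  have e4 : (ga ^ 2 * ((starRingEnd ℂ) be * (uu (K z) * vv (K z)) - bb z)) *
      ((starRingEnd ℂ) ga * kap * (starRingEnd ℂ) (aa z)) =
      (ga ^ 2 * (starRingEnd ℂ) ga) * kap * ((starRingEnd ℂ) be * ((starRingEnd ℂ) (aa z) * (uu (K z) * vv (K z))) -
        bb z * (starRingEnd ℂ) (aa z)) := by ring
  rw [e4, e3, i1']
  have e5 : bb z * (starRingEnd ℂ) (aa z) = - aa z * (starRingEnd ℂ) (bb z) := by
    calc bb z * (starRingEnd ℂ) (aa z) = ((starRingEnd ℂ) (bb z) * (uu (K z) * vv (K z))) * (starRingEnd ℂ) (aa z) := by rw [i2']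
      _ = (starRingEnd ℂ) (bb z) * ((starRingEnd ℂ) (aa z) * (uu (K z) * vv (K z))) := by ring
      _ = - aa z * (starRingEnd ℂ) (bb z) := by rw [i1']; ring
  rw [e5]; ring

lemma bb_differentiableAt {z : ℂ} (hz : ‖z‖ < 1) : DifferentiableAt ℂ bb z := by
  obtain ⟨h1, h2, h3⟩ := inside hz
  unfold bb
  exact DifferentiableAt.comp (g := fb) z (fb_differentiableAt h1 h2 h3) (K_differentiableAt hz)

lemma aa_differentiableAt {z : ℂ} (hz : ‖z‖ < 1) : DifferentiableAt ℂ aa z := by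
  obtain ⟨h1, h2, h3⟩ := inside hz
  unfold aa
  exact DifferentiableAt.comp (g := fa) z (fa_differentiableAt h1 h2 h3) (K_differentiableAt hz)

lemma dd_differentiableAt {z : ℂ} (hz : ‖z‖ < 1) : DifferentiableAt ℂ dd z := by
  have := bb_differentiableAt hz
  unfold dd; fun_prop

lemma cc_differentiableAt {z : ℂ} (hz : ‖z‖ < 1) : DifferentiableAt ℂ cc z := by
  obtain ⟨h1, h2, h3⟩ := inside hz
  unfold cc
  exact ((bb_differentiableAt hz).sub_const _).div (dd_differentiableAt hz) (dd_ne (bb_le h1 h2))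

lemma oo_differentiableAt {z : ℂ} (hz : ‖z‖ < 1) : DifferentiableAt ℂ oo z := by
  obtain ⟨h1, h2, h3⟩ := inside hz
  unfold oo
  exact ((aa_differentiableAt hz).const_mul _).div (dd_differentiableAt hz) (dd_ne (bb_le h1 h2))

lemma gf_differentiableAt {z : ℂ} (hz : ‖z‖ < 1) : DifferentiableAt ℂ gf z := by
  obtain ⟨h1, h2, h3⟩ := inside hz
  have hu : DifferentiableAt ℂ (fun z => uu (K z)) z :=
    DifferentiableAt.comp (g := uu) z (uu_differentiableAt h1 h2 h3) (K_differentiableAt hz)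
  have hv : DifferentiableAt ℂ (fun z => vv (K z)) z :=
    DifferentiableAt.comp (g := vv) z (vv_differentiableAt h1 h2 h3) (K_differentiableAt hz)
  have hb := bb_differentiableAt hz
  unfold gf
  refine DifferentiableAt.div ?_ (dd_differentiableAt hz) (dd_ne (bb_le h1 h2))
  exact (((hu.mul hv).const_mul _).sub hb).const_mul _

lemma gf_bound {z : ℂ} (h1 : 0 ≤ (K z).re) (h2 : 0 ≤ (K z).im) : ‖gf z‖ ≤ 2 / (1 - ‖be‖) := by
  have hb := bb_le h1 h2
  have hd := dd_ge hb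
  have hbe := be_lt
  unfold gf
  rw [norm_div, norm_mul, norm_pow, ga_norm, one_pow, one_mul]
  have h3 : ‖(starRingEnd ℂ) be * (uu (K z) * vv (K z)) - bb z‖ ≤ 2 := by
    refine (norm_sub_le _ _).trans ?_
    rw [norm_mul, norm_mul, RCLike.norm_conj]
    have h4 := uu_le h1 h2
    have h5 := vv_le h1 h2
    have h6 : ‖uu (K z)‖ * ‖vv (K z)‖ ≤ 1 * 1 := by gcongr
    have h7 : ‖be‖ * (‖uu (K z)‖ * ‖vv (K z)‖) ≤ 1 * (1 * 1) := by gcongr
    linarith
  gcongr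

/-- continuity at boundary points -/
lemma circle_continuousAt {z : ℂ} (hz : ‖z‖ = 1) (h1 : z ≠ 1) (h2 : z ≠ -1) :
    ContinuousAt cc z ∧ ContinuousAt oo z ∧ ContinuousAt gf z := by
  obtain ⟨h3, h4, h5, h6⟩ := onCircle hz h1 h2
  have hK := K_continuousAt hz.le h1
  have hb : ContinuousAt bb z := ContinuousAt.comp (g := fb) (fb_differentiableAt h3 h4 h5).continuousAt hK
  have ha : ContinuousAt aa z := ContinuousAt.comp (g := fa) (fa_differentiableAt h3 h4 h5).continuousAt hK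
  have hu : ContinuousAt (fun z => uu (K z)) z := ContinuousAt.comp (g := uu) (uu_differentiableAt h3 h4 h5).continuousAt hK
  have hv : ContinuousAt (fun z => vv (K z)) z := ContinuousAt.comp (g := vv) (vv_differentiableAt h3 h4 h5).continuousAt hK
  have hd : ContinuousAt dd z := by unfold dd; fun_prop
  have hd0 := dd_ne (bb_le h3 h4)
  refine ⟨?_, ?_, ?_⟩
  · unfold cc; exact (hb.sub continuousAt_const).div hd hd0
  · unfold oo; exact (continuousAt_const.mul ha).div hd hd0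
  · unfold gf
    exact (continuousAt_const.mul ((continuousAt_const.mul (hu.mul hv)).sub hb)).div hd hd0

/-- behaviour on the radius that ends at the singular point -/
lemma cc_radial {d : ℝ} (hd0 : 0 < d) (hd : d ≤ 1 / 8) : ‖cc ((1 - d : ℝ) : ℂ)‖ ≤ 1 - (1 - ‖be‖ ^ 2) / 512 * Real.sqrt d := by
  set z : ℂ := ((1 - d : ℝ) : ℂ) with hz
  have hzn : ‖z‖ < 1 := by
    rw [hz, Complex.norm_real, Real.norm_of_nonneg (by linarith)]; linarith
  obtain ⟨h1, h2, h3⟩ := inside hzn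
  have hcay : cay z = ((2 - d) / d : ℝ) := by
    unfold cay
    rw [hz]; push_cast
    congr 1 <;> ring
  set p : ℝ := (2 - d) / d with hp
  have hp0 : 0 < p := by rw [hp]; apply div_pos <;> linarith
  have e1 : (K z).re ^ 2 - (K z).im ^ 2 = 0 := by
    have := tt_re_sq (cay z)
    rw [hcay, Complex.ofReal_im, neg_zero] at this
    unfold K; rw [hcay]; exact this
  have e2 : 2 * ((K z).re * (K z).im) = p := by
    have := tt_re_mul_im (cay z)
    rw [hcay, Complex.ofReal_re] at this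
    unfold K; rw [hcay]; exact this
  set t := (K z).re with ht
  have him : (K z).im = t := by nlinarith
  rw [him] at e2
  have ht2 : 2 * t ^ 2 = p := by rw [← e2]; ring
  have hpd : p * d = 2 - d := by rw [hp]; field_simp
  have htge : 2 ≤ t := by
    have : 8 ≤ p := by
      rw [hp, le_div_iff₀ hd0]; linarith
    nlinarith
  have hdiag := fb_diag htge rfl him
  have hbb : ‖bb z‖ ≤ 1 - 1 / (64 * t) := hdiag
  -- t ≤ 1 / sqrt d
  set s := Real.sqrt d with hs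
  have hs0 : 0 < s := Real.sqrt_pos.2 hd0
  have hs2 : s ^ 2 = d := Real.sq_sqrt hd0.le
  have hts : t * s ≤ 1 := by
    have : (t * s) ^ 2 ≤ 1 := by
      rw [mul_pow, hs2]; nlinarith
    nlinarith [mul_pos (by linarith : 0 < t) hs0]
  have hts2 : s / 64 ≤ 1 / (64 * t) := by
    rw [div_le_div_iff₀ (by norm_num) (by linarith)]; nlinarith
  have hb1 : ‖bb z‖ ≤ 1 - s / 64 := by linarith
  have hble := bb_le h1 h2
  have hcc := one_sub_cc hble
  have hdd := dd_le hble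
  have hdd0 := norm_pos_iff.2 (dd_ne hble)
  have hbs := be_sq_lt
  have h6 : (1 - ‖be‖ ^ 2) * (s / 64) / 4 ≤ 1 - ‖cc z‖ ^ 2 := by
    rw [hcc]
    have h7 : s / 64 ≤ 1 - ‖bb z‖ ^ 2 := by nlinarith [norm_nonneg (bb z)]
    have h8 : ‖dd z‖ ^ 2 ≤ 4 := by nlinarith
    rw [div_le_div_iff₀ (by norm_num) (by positivity)]
    have h10 : 0 ≤ 1 - ‖bb z‖ ^ 2 := le_trans (by positivity) h7
    have h9 : (1 - ‖be‖ ^ 2) * (s / 64) * ‖dd z‖ ^ 2 ≤ (1 - ‖be‖ ^ 2) * (1 - ‖bb z‖ ^ 2) * 4 := by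
      gcongr
    exact h9
  have hc1 : ‖cc z‖ < 1 := cc_lt_one h1 h2 h3
  have h11 : 1 - ‖cc z‖ ^ 2 ≤ 2 * (1 - ‖cc z‖) := by nlinarith [norm_nonneg (cc z)]
  have h12 : (1 - ‖be‖ ^ 2) * (s / 64) / 4 = 2 * ((1 - ‖be‖ ^ 2) / 512 * s) := by ring
  linarith

lemma cc_not_zero : ∃ z : ℂ, ‖z‖ < 1 ∧ cc z ≠ 0 := by
  by_contra hcon
  push Not at hcon
  -- then `b` is constant on the disc, hence at all boundary points
  have hb : ∀ z : ℂ, ‖z‖ < 1 → bb z = be := by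
    intro z hz
    obtain ⟨h1, h2, h3⟩ := inside hz
    have h := hcon z hz
    unfold cc at h
    rw [div_eq_zero_iff] at h
    have := h.resolve_right (dd_ne (bb_le h1 h2))
    linear_combination this
  have hB : ∀ κ : ℝ, 0 < κ → fb (κ : ℂ) = be := by
    intro κ hκ
    set u : ℂ := -((κ ^ 2 : ℝ) : ℂ) * I with hu
    set z : ℂ := (u - 1) / (u + 1) with hz
    have hu1 : u + 1 ≠ 0 := by
      intro h
      have := congrArg Complex.re h
      rw [hu] at this; simp [-ofReal_pow] at this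
    have hcz : cay z = u := by
      unfold cay
      rw [hz]
      have : (1 - (u - 1) / (u + 1)) = 2 / (u + 1) := by field_simp; ring
      have h2 : (1 + (u - 1) / (u + 1)) = 2 * u / (u + 1) := by field_simp; ring
      rw [this, h2]
      field_simp
    have hKz : K z = κ := by
      have h1 := K_sq z
      rw [hcz, hu] at h1
      have h2 : (K z - κ) * (K z + κ) = 0 := by
        have : I * (-((κ ^ 2 : ℝ) : ℂ) * I) = (κ : ℂ) ^ 2 := by
          push_cast; linear_combination (-(κ:ℂ) ^ 2) * I_sq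
        rw [this] at h1
        linear_combination h1
      rcases mul_eq_zero.1 h2 with h | h
      · linear_combination h
      · exfalso
        have h3 : K z = -κ := by linear_combination h
        have h4 : (0:ℝ) ≤ (cay z).re := by rw [hcz, hu]; simp [-ofReal_pow]
        have h5 := (K_quad h4).1
        rw [h3] at h5; simp at h5; linarith
    have hzn : ‖z‖ = 1 := by
      rw [hz, norm_div]
      have : ‖u - 1‖ = ‖u + 1‖ := by
        rw [← abs_of_nonneg (norm_nonneg (u - 1)), ← abs_of_nonneg (norm_nonneg (u + 1))]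
        refine sq_eq_sq_iff_abs_eq_abs _ _ |>.1 ?_
        rw [Complex.sq_norm, Complex.sq_norm, Complex.normSq_apply, Complex.normSq_apply, hu]
        simp [-ofReal_pow]
      rw [this]
      exact div_self (norm_ne_zero_iff.2 hu1)
    have hz1 : z ≠ 1 := by
      intro h
      rw [hz, div_eq_one_iff_eq hu1] at h
      have : (2:ℂ) = 0 := by linear_combination -h
      norm_num at this
    have hz2 : z ≠ -1 := by
      intro h
      have h3 : cay z = 0 := by rw [h]; unfold cay; simp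
      rw [hcz, hu] at h3
      have := congrArg Complex.im h3
      simp [-ofReal_pow] at this
      exact hκ.ne' this
    obtain ⟨h3, h4, h5, h6⟩ := onCircle hzn hz1 hz2
    have hcont : ContinuousAt bb z :=
      ContinuousAt.comp (g := fb) (fb_differentiableAt h3 h4 h5).continuousAt (K_continuousAt hzn.le hz1)
    have h7 : Tendsto (fun r : ℝ => bb (r * z)) (𝓝[<] 1) (𝓝 (bb z)) := hcont.tendsto.comp (radial_tendsto z)
    have h8 : Tendsto (fun r : ℝ => bb (r * z)) (𝓝[<] 1) (𝓝 be) := by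
      refine tendsto_const_nhds.congr' ?_
      have hev1 : ∀ᶠ s : ℝ in 𝓝[<] 1, s < 1 := self_mem_nhdsWithin
      have hev2 : ∀ᶠ s : ℝ in 𝓝[<] 1, 0 < s := mem_nhdsWithin_of_mem_nhds (lt_mem_nhds one_pos)
      filter_upwards [hev1, hev2] with r hr1 hr0
      refine (hb _ ?_).symm
      rw [norm_mul, hzn, mul_one, Complex.norm_real, Real.norm_of_nonneg hr0.le]
      exact hr1
    have h9 := tendsto_nhds_unique h7 h8
    unfold bb at h9
    rw [hKz] at h9
    exact h9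
  have e1 := hB 1 one_pos
  have e2 := hB (Real.pi / 2) (by positivity)
  rw [Complex.ofReal_one, fb_at_one] at e1
  exact fb_at_half_pi (e2.trans e1.symm)

end Pool.Agent.TH606.Arov
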