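import Pool.Agent.TH606.Arov.Mean
import Pool.Agent.TH606.Arov.Defs

/-!
# The counterexample to condition (4)
-/

open MeasureTheory Filter Topology Complex
open Pool.Agent.Helper630.Szego

namespace Pool.Agent.TH606.Arov

open scoped ENNReal

variable {N M L : Type*} [NormedAddCommGroup N] [InnerProductSpace ℂ N] [CompleteSpace N]
  [NormedAddCommGroup M] [InnerProductSpace ℂ M] [CompleteSpace M]
  [NormedAddCommGroup L] [InnerProductSpace ℂ L] [CompleteSpace L]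

lemma PP_adj (e : M) (f : N) : ContinuousLinearMap.adjoint (PP e f) = PP f e := by
  refine ContinuousLinearMap.ext fun x => ?_
  refine ext_inner_right ℂ fun y => ?_
  rw [ContinuousLinearMap.adjoint_inner_left, PP_apply, PP_apply, inner_smul_left, inner_smul_right, inner_conj_symm]
  ring

lemma PP_adj_smul (c : ℂ) (e : M) (f : N) :
    ContinuousLinearMap.adjoint (c • PP e f) = (starRingEnd ℂ) c • PP f e := by
  rw [LinearIsometryEquiv.map_smulₛₗ, PP_adj]

/-- `(PP a b) ∘ (PP c d) = ⟨a, d⟩ PP c b` -/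
lemma PP_comp (a d : M) (b : N) (c : L) : (PP a b).comp (PP c d) = inner ℂ a d • PP c b := by
  refine ContinuousLinearMap.ext fun x => ?_
  rw [ContinuousLinearMap.comp_apply, PP_apply, PP_apply, inner_smul_right, _root_.smul_apply, PP_apply,
    smul_smul, mul_comm]

/-- the operator equal to `c` on the line of `f` and to the identity on the complement -/
noncomputable def EE (f : N) (c : ℂ) : N →L[ℂ] N := 1 + (c - 1) • PP f f

lemma EE_apply (f : N) (c : ℂ) (x : N) : EE f c x = x + ((c - 1) * inner ℂ f x) • f := by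
  unfold EE
  rw [_root_.add_apply, _root_.smul_apply, PP_apply, smul_smul]
  rfl

lemma EE_adj (f : N) (c : ℂ) : ContinuousLinearMap.adjoint (EE f c) = EE f ((starRingEnd ℂ) c) := by
  have h1 : ContinuousLinearMap.adjoint (1 : N →L[ℂ] N) = 1 := ContinuousLinearMap.adjoint_id
  unfold EE
  rw [map_add, h1, PP_adj_smul, RingHom.map_sub, RingHom.map_one]

lemma EE_mul (f : N) (hf : ‖f‖ = 1) (c d : ℂ) : (EE f c).comp (EE f d) = EE f (c * d) := by
  have hff : inner ℂ f f = (1:ℂ) := by rw [inner_self_eq_norm_sq_to_K, hf]; norm_num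
  refine ContinuousLinearMap.ext fun x => ?_
  rw [ContinuousLinearMap.comp_apply, EE_apply, EE_apply, EE_apply, inner_add_right, inner_smul_right, hff]
  module

lemma EE_one (f : N) : EE f 1 = 1 := by
  unfold EE; simp

lemma EE_norm (f : N) (hf : ‖f‖ = 1) {c : ℂ} (hc : ‖c‖ ≤ 1) : ‖EE f c‖ ≤ 1 := by
  refine ContinuousLinearMap.opNorm_le_bound _ zero_le_one fun x => ?_
  rw [one_mul]
  refine le_of_sq_le_sq ?_ (norm_nonneg _)
  rw [EE_apply, @norm_add_sq ℂ, inner_smul_right, norm_smul, hf, mul_one, norm_mul]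
  set t : ℂ := inner ℂ f x with ht
  have h1 : inner ℂ x f = (starRingEnd ℂ) t := (inner_conj_symm x f).symm
  have h2 : RCLike.re ((c - 1) * t * inner ℂ x f) = (c.re - 1) * ‖t‖ ^ 2 := by
    rw [h1, mul_assoc, Complex.mul_conj']
    have : ((‖t‖:ℂ) ^ 2) = ((‖t‖ ^ 2 : ℝ) : ℂ) := by push_cast; rfl
    rw [this]
    change ((c - 1) * ((‖t‖ ^ 2 : ℝ) : ℂ)).re = _
    rw [Complex.re_mul_ofReal]; simp
  rw [h2, mul_pow]
  have h3 : ‖c - 1‖ ^ 2 = ‖c‖ ^ 2 - 2 * c.re + 1 := by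
    rw [Complex.sq_norm, Complex.sq_norm, Complex.normSq_apply, Complex.normSq_apply]
    simp only [sub_re, one_re, sub_im, one_im]; ring
  rw [h3]
  have h4 : ‖c‖ ^ 2 ≤ 1 := by nlinarith [norm_nonneg c]
  nlinarith [sq_nonneg ‖t‖]

lemma EE_pos (f : N) (hf : ‖f‖ = 1) {c : ℝ} (hc : 0 ≤ c) : (EE f (c : ℂ)).IsPositive := by
  rw [ContinuousLinearMap.isPositive_iff_complex]
  intro x
  rw [EE_apply, inner_add_left, inner_smul_left]
  set t : ℂ := inner ℂ f x with ht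
  have h0 : ‖t‖ ≤ ‖x‖ := by
    have := norm_inner_le_norm (𝕜 := ℂ) f x
    rwa [hf, one_mul] at this
  have h1 : (starRingEnd ℂ) (((c:ℂ) - 1) * t) * t = (((c - 1) * ‖t‖ ^ 2 : ℝ) : ℂ) := by
    rw [map_mul, mul_assoc, Complex.conj_mul', map_sub, map_one, Complex.conj_ofReal]; push_cast; rfl
  have h2 : inner ℂ x x = ((‖x‖ ^ 2 : ℝ) : ℂ) := by rw [inner_self_eq_norm_sq_to_K]; push_cast; rfl
  rw [h1, h2, ← Complex.ofReal_add]
  constructor
  · change ((((‖x‖ ^ 2 + (c - 1) * ‖t‖ ^ 2 : ℝ) : ℂ).re : ℝ) : ℂ) = _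
    rw [Complex.ofReal_re]
  · change 0 ≤ ((‖x‖ ^ 2 + (c - 1) * ‖t‖ ^ 2 : ℝ) : ℂ).re
    rw [Complex.ofReal_re]
    have h3 : ‖t‖ ^ 2 ≤ ‖x‖ ^ 2 := by gcongr
    nlinarith [mul_nonneg hc (sq_nonneg ‖t‖)]

lemma EE_det [FiniteDimensional ℂ N] {ι : Type*} [Fintype ι] [DecidableEq ι] (b : OrthonormalBasis ι ℂ N) (i₀ : ι)
    (c : ℂ) : ContinuousLinearMap.det (EE (b i₀) c) = c := by
  unfold ContinuousLinearMap.det
  set T : N →ₗ[ℂ] N := (EE (b i₀) c : N →ₗ[ℂ] N) with hT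
  have h4 : LinearMap.toMatrix b.toBasis b.toBasis T = Matrix.diagonal (fun i => if i = i₀ then c else 1) := by
    ext i j
    rw [LinearMap.toMatrix_apply]
    have h5 : T (b.toBasis j) = b j + ((c - 1) * inner ℂ (b i₀) (b j)) • b i₀ := by
      rw [OrthonormalBasis.coe_toBasis]
      exact EE_apply _ _ _
    rw [h5, OrthonormalBasis.coe_toBasis_repr_apply, map_add, map_smul]
    simp only [PiLp.add_apply, PiLp.smul_apply, smul_eq_mul, OrthonormalBasis.repr_self, PiLp.single_apply]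
    rw [Matrix.diagonal_apply]
    have h6 := orthonormal_iff_ite.1 b.orthonormal i₀ j
    rw [h6]
    by_cases hij : i = j
    · subst hij
      by_cases hi : i = i₀
      · subst hi; simp
      · simp [hi, Ne.symm hi]
    · by_cases hj : j = i₀
      · subst hj; simp [hij]
      · simp [hij, Ne.symm hj]
  rw [← LinearMap.det_toMatrix b.toBasis, h4, Matrix.det_diagonal, Finset.prod_ite_eq' Finset.univ i₀, if_pos (Finset.mem_univ _)]

/-- the boundary function of `χ` -/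
noncomputable def XA (e : M) (f : N) (θ : TT) : M →L[ℂ] N := cc (pt θ) • PP e f

lemma chiA_boundary (e : M) (f : N) : IsBoundary (chiA e f) (XA e f) := by
  filter_upwards [ae_ne 1, ae_ne (-1)] with θ hθ1 hθ2
  have hc := (circle_continuousAt (pt_norm θ) hθ1 hθ2).1
  exact (hc.tendsto.comp (radial_tendsto (pt θ))).smul_const _

/-- the outer factor -/
noncomputable def AA (f : N) (z : ℂ) : N →L[ℂ] N := EE f (oo z)
noncomputable def AB (f : N) (θ : TT) : N →L[ℂ] N := EE f (oo (pt θ))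

lemma AA_outer [FiniteDimensional ℂ N] {ι : Type*} [Fintype ι] [DecidableEq ι] (b : OrthonormalBasis ι ℂ N) (i₀ : ι) :
    IsOuterNonneg (AA (b i₀)) (AB (b i₀)) := by
  have hf : ‖b i₀‖ = 1 := b.orthonormal.1 i₀
  refine ⟨⟨?_, ?_⟩, ?_, ?_, ?_, ?_, ?_⟩
  · intro z hz
    unfold AA EE
    refine DifferentiableAt.differentiableWithinAt ?_
    exact (((oo_differentiableAt (mem_ball_zero_iff.1 hz)).sub_const 1).smul_const _).const_add _
  · intro z hz
    obtain ⟨h1, h2, h3⟩ := inside (mem_ball_zero_iff.1 hz)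
    exact EE_norm _ hf (oo_le_one h1 h2)
  · filter_upwards [ae_ne 1, ae_ne (-1)] with θ hθ1 hθ2
    have hc := (circle_continuousAt (pt_norm θ) hθ1 hθ2).2.1
    unfold AA AB EE
    exact (((hc.tendsto.comp (radial_tendsto (pt θ))).sub_const 1).smul_const _).const_add _
  · unfold AA
    rw [oo_zero]
    exact EE_pos _ hf oo_zero_pos.le
  · unfold AA
    rw [EE_det]
    obtain ⟨h1, h2, h3⟩ := inside (z := 0) (by simp)
    exact oo_ne h1 h2 h3
  · unfold AB
    simp_rw [EE_det]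
    exact log_oo_integrable
  · unfold AA AB
    simp_rw [EE_det]
    exact oo_outer

lemma sz_XA [FiniteDimensional ℂ M] {ι : Type*} [Fintype ι] [DecidableEq ι] (b : OrthonormalBasis ι ℂ M) (i₀ : ι)
    (f : N) (hf : ‖f‖ = 1) : ∀ᵐ θ : TT, szDet (XA (b i₀) f θ) = ‖oo (pt θ)‖ ^ 2 := by
  filter_upwards [ae_ne 1, ae_ne (-1)] with θ hθ1 hθ2
  unfold XA
  rw [det_calc b i₀ f hf]
  exact (co_eq (pt_norm θ) hθ1 hθ2).symm

lemma EE_unit (f : N) (hf : ‖f‖ = 1) {c : ℂ} (hc : c ≠ 0) : Ring.inverse (EE f c) = EE f c⁻¹ := by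
  have h1 : EE f c * EE f c⁻¹ = 1 := by
    have := EE_mul f hf c c⁻¹
    rw [mul_inv_cancel₀ hc, EE_one] at this
    exact this
  have h2 : EE f c⁻¹ * EE f c = 1 := by
    have := EE_mul f hf c⁻¹ c
    rw [inv_mul_cancel₀ hc, EE_one] at this
    exact this
  exact Ring.inverse_unit ⟨EE f c, EE f c⁻¹, h1, h2⟩

lemma inner_self_one (e : M) (he : ‖e‖ = 1) : inner ℂ e e = (1:ℂ) := by
  rw [inner_self_eq_norm_sq_to_K, he]; norm_num

lemma smul_comp_smul (a b : ℂ) (S : N →L[ℂ] M) (T : L →L[ℂ] N) : (a • S).comp (b • T) = (a * b) • S.comp T := by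
  rw [ContinuousLinearMap.smul_comp, ContinuousLinearMap.comp_smul, smul_smul]

lemma one_sub_EE (f : N) (c : ℂ) : 1 - c • PP f f = EE f (1 - c) := by
  unfold EE
  module

lemma factor_left (e : M) (f : N) (he : ‖e‖ = 1) (hf : ‖f‖ = 1) :
    ∀ᵐ θ : TT, IsCofactor (XA e f θ) (AB f θ) := by
  filter_upwards [ae_ne 1, ae_ne (-1)] with θ hθ1 hθ2
  unfold IsCofactor XA AB
  rw [PP_adj_smul, smul_comp_smul, PP_comp, inner_self_one e he, one_smul, EE_adj, EE_mul f hf, one_sub_EE,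
    Complex.mul_conj', Complex.mul_conj']
  congr 1
  have := co_eq (pt_norm θ) hθ1 hθ2
  have h2 : ((‖oo (pt θ)‖ ^ 2 : ℝ) : ℂ) = ((1 - ‖cc (pt θ)‖ ^ 2 : ℝ) : ℂ) := by rw [this]
  push_cast at h2
  exact h2.symm

lemma factor_right (e : M) (f : N) (he : ‖e‖ = 1) (hf : ‖f‖ = 1) :
    ∀ᵐ θ : TT, IsCofactor (ContinuousLinearMap.adjoint (XA e f θ)) (ContinuousLinearMap.adjoint (AB e θ)) := by
  filter_upwards [ae_ne 1, ae_ne (-1)] with θ hθ1 hθ2
  unfold IsCofactor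
  rw [ContinuousLinearMap.adjoint_adjoint, ContinuousLinearMap.adjoint_adjoint]
  unfold XA AB
  rw [PP_adj_smul, smul_comp_smul, PP_comp, inner_self_one f hf, one_smul, EE_adj, EE_mul e he, one_sub_EE,
    Complex.conj_mul', Complex.conj_mul']
  congr 1
  have := co_eq (pt_norm θ) hθ1 hθ2
  have h2 : ((‖oo (pt θ)‖ ^ 2 : ℝ) : ℂ) = ((1 - ‖cc (pt θ)‖ ^ 2 : ℝ) : ℂ) := by rw [this]
  push_cast at h2
  exact h2.symm

lemma EE_comp_PP (e : M) (f : N) (he : ‖e‖ = 1) (c : ℂ) : (EE e c).comp (PP f e) = c • PP f e := by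
  refine ContinuousLinearMap.ext fun x => ?_
  rw [ContinuousLinearMap.comp_apply, EE_apply, PP_apply, inner_smul_right, inner_self_one e he, _root_.smul_apply, PP_apply]
  module

lemma PP_comp_EE (e : M) (f : N) (hf : ‖f‖ = 1) (c : ℂ) : (PP f e).comp (EE f c) = c • PP f e := by
  refine ContinuousLinearMap.ext fun x => ?_
  rw [ContinuousLinearMap.comp_apply, EE_apply, PP_apply, inner_add_right, inner_smul_right, inner_self_one f hf,
    _root_.smul_apply, PP_apply]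
  module

lemma symbol_eq (e : M) (f : N) (he : ‖e‖ = 1) (hf : ‖f‖ = 1) :
    ∀ᵐ θ : TT, symbolF (XA e f) (AB f) (AB e) θ = gf (pt θ) • PP f e := by
  filter_upwards [ae_ne 1, ae_ne (-1)] with θ hθ1 hθ2
  obtain ⟨h1, h2, h3, _⟩ := onCircle (pt_norm θ) hθ1 hθ2
  have ho := oo_ne h1 h2 h3
  have hoc : (starRingEnd ℂ) (oo (pt θ)) ≠ 0 := (map_ne_zero _).2 ho
  unfold symbolF XA AB
  rw [PP_adj_smul, EE_adj, EE_unit e he hoc, ContinuousLinearMap.smul_comp, PP_comp_EE e f hf, ContinuousLinearMap.comp_smul,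
    ContinuousLinearMap.comp_smul, EE_comp_PP e f he, smul_smul, smul_smul]
  congr 1
  have hg := gf_boundary (pt_norm θ) hθ1 hθ2
  rw [hg, mul_assoc, mul_inv_cancel₀ hoc, mul_one]

lemma hankel_zero (e : M) (f : N) (he : ‖e‖ = 1) (hf : ‖f‖ = 1) :
    IsHankel (symbolF (XA e f) (AB f) (AB e)) (0 : L2 N →L[ℂ] L2 M) := by
  intro j k ξ
  have h1 : fourierOp (symbolF (XA e f) (AB f) (AB e)) (-(j + k + 1 : ℕ)) = 0 := by
    unfold fourierOp
    have h2 : ∫ θ : TT, pt θ ^ (-(-((j + k + 1 : ℕ) : ℤ))) • symbolF (XA e f) (AB f) (AB e) θ =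
        ∫ θ : TT, (pt θ ^ (j + k + 1) * gf (pt θ)) • PP f e := by
      refine integral_congr_ae ?_
      filter_upwards [symbol_eq e f he hf] with θ hθ
      rw [hθ, neg_neg, zpow_natCast, smul_smul]
    rw [h2, integral_smul_const, gf_coeff _ (Nat.succ_ne_zero _), zero_smul, smul_zero]
  rw [h1]
  rfl

lemma qplus_zero (z : ℂ) (ρ : ℝ) : qplus (0 : L2 N →L[ℂ] L2 M) z ρ = 0 := by
  unfold qplus regularStar
  rw [map_zero, ContinuousLinearMap.zero_comp, ContinuousLinearMap.comp_zero, smul_zero]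

theorem main (N M : Type*) [NormedAddCommGroup N] [InnerProductSpace ℂ N] [CompleteSpace N] [FiniteDimensional ℂ N]
    [NormedAddCommGroup M] [InnerProductSpace ℂ M] [CompleteSpace M] [FiniteDimensional ℂ M]
    (hN : 0 < Module.finrank ℂ N) (hNM : Module.finrank ℂ N ≤ Module.finrank ℂ M) :
    ∃ χ : ℂ → M →L[ℂ] N, InBa χ ∧ ∃ X : TT → M →L[ℂ] N, IsBoundary χ X ∧
      (∀ᵐ θ, 0 < szDet (X θ)) ∧ Integrable (fun θ => Real.log (szDet (X θ))) ∧
      ∃ (A : ℂ → N →L[ℂ] N) (A' : TT → N →L[ℂ] N) (D : ℂ → M →L[ℂ] M) (D' : TT → M →L[ℂ] M),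
        IsFactors X A A' D D' ∧ ∃ Γ : L2 N →L[ℂ] L2 M, IsHankel (symbolF X A' D') Γ ∧ ¬ Condition4 χ Γ := by
  classical
  have hnt : Nontrivial N := Module.nontrivial_of_finrank_pos hN
  have hM : 0 < Module.finrank ℂ M := by omega
  set b := stdOrthonormalBasis ℂ M with hb
  set i₀ : Fin (Module.finrank ℂ M) := ⟨0, hM⟩ with hi
  set b' := stdOrthonormalBasis ℂ N with hb'
  set j₀ : Fin (Module.finrank ℂ N) := ⟨0, hN⟩ with hj
  have he : ‖b i₀‖ = 1 := b.orthonormal.1 i₀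
  have hf : ‖b' j₀‖ = 1 := b'.orthonormal.1 j₀
  refine ⟨chiA (b i₀) (b' j₀), chiA_inBa _ _ he hf, XA (b i₀) (b' j₀), chiA_boundary _ _, ?_, ?_,
    AA (b' j₀), AB (b' j₀), AA (b i₀), AB (b i₀), ⟨AA_outer b' j₀, AA_outer b i₀, factor_left _ _ he hf,
    factor_right _ _ he hf⟩, 0, hankel_zero _ _ he hf, ?_⟩
  · filter_upwards [sz_XA b i₀ (b' j₀) hf, ae_ne 1, ae_ne (-1)] with θ hθ hθ1 hθ2
    rw [hθ]
    obtain ⟨h1, h2, h3, _⟩ := onCircle (pt_norm θ) hθ1 hθ2
    have := norm_pos_iff.2 (oo_ne h1 h2 h3)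
    positivity
  · refine (log_oo_integrable.const_mul 2).congr ?_
    filter_upwards [sz_XA b i₀ (b' j₀) hf] with θ hθ
    rw [hθ, Real.log_pow]; push_cast; rfl
  · intro hcon
    obtain ⟨z, hz, hcz⟩ := cc_not_zero
    have h1 := hcon z (mem_ball_zero_iff.2 hz)
    have h2 : (fun ρ : ℝ => (Ring.inverse (Pplus (0 : L2 N →L[ℂ] L2 M) z ρ)).comp (qplus (0 : L2 N →L[ℂ] L2 M) z ρ)) =
        fun _ => (0 : M →L[ℂ] N) := by
      funext ρ
      rw [qplus_zero, ContinuousLinearMap.comp_zero]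
    rw [h2] at h1
    have h3 : chiA (b i₀) (b' j₀) z = 0 := tendsto_nhds_unique h1 tendsto_const_nhds
    have h4 : PP (b i₀) (b' j₀) (b i₀) = b' j₀ := by
      rw [PP_apply, inner_self_one _ he, one_smul]
    have h5 : cc z • (b' j₀ : N) = 0 := by
      have := congrArg (fun T : M →L[ℂ] N => T (b i₀)) h3
      simp only [chiA, _root_.smul_apply, h4, _root_.zero_apply] at this
      exact this
    rcases smul_eq_zero.1 h5 with h | h
    · exact hcz h
    · rw [h, norm_zero] at hf; exact zero_ne_one hf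

end Pool.Agent.TH606.Arov
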