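import Pool.Agent.Helper630.Szego.Final

/-!
# The Fabry-Perot pair in the variable `k` (closed first quadrant)

`u = (k(1+s) - (1-s)) / (k(1+s) + (1-s))`, `v = (k(1-s) - (1+s)) / (k(1-s) + (1+s))`, `s = exp(ik)`.
Both are inner functions of `k²` in the upper half plane; `b = (u+v)/2`, `a = (u-v)/2`.
-/

open Complex

namespace Pool.Agent.TH606.Arov

noncomputable def ss (k : ℂ) : ℂ := Complex.exp (I * k)
noncomputable def UD (k : ℂ) : ℂ := k * (1 + ss k) + (1 - ss k)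
noncomputable def UN (k : ℂ) : ℂ := k * (1 + ss k) - (1 - ss k)
noncomputable def VD (k : ℂ) : ℂ := k * (1 - ss k) + (1 + ss k)
noncomputable def VN (k : ℂ) : ℂ := k * (1 - ss k) - (1 + ss k)
noncomputable def uu (k : ℂ) : ℂ := UN k / UD k
noncomputable def vv (k : ℂ) : ℂ := VN k / VD k
noncomputable def fa (k : ℂ) : ℂ := (uu k - vv k) / 2
noncomputable def fb (k : ℂ) : ℂ := (uu k + vv k) / 2

lemma ss_re (k : ℂ) : (ss k).re = Real.exp (-k.im) * Real.cos k.re := by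
  unfold ss; rw [Complex.exp_re]; simp
lemma ss_im (k : ℂ) : (ss k).im = Real.exp (-k.im) * Real.sin k.re := by
  unfold ss; rw [Complex.exp_im]; simp
lemma ss_norm (k : ℂ) : ‖ss k‖ = Real.exp (-k.im) := by
  unfold ss; rw [Complex.norm_exp]; simp

lemma ss_norm_le {k : ℂ} (hk : 0 ≤ k.im) : ‖ss k‖ ≤ 1 := by
  rw [ss_norm, Real.exp_le_one_iff]; linarith

lemma one_sub_ss {k : ℂ} (hk : 0 ≤ k.im) : ‖1 - ss k‖ ≤ 2 * ‖k‖ := by
  by_cases h : ‖k‖ ≤ 1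
  · have h1 : ‖Complex.exp (I * k) - 1‖ ≤ 2 * ‖I * k‖ :=
      Complex.norm_exp_sub_one_le (by rwa [norm_mul, norm_I, one_mul])
    rw [norm_mul, norm_I, one_mul] at h1
    rw [norm_sub_rev]; exact h1
  · push Not at h
    have : ‖1 - ss k‖ ≤ ‖(1:ℂ)‖ + ‖ss k‖ := norm_sub_le _ _
    rw [norm_one] at this
    linarith [ss_norm_le hk]

lemma U_diff (k : ℂ) : ‖UD k‖ ^ 2 - ‖UN k‖ ^ 2 =
    4 * (k.re * (1 - Real.exp (-k.im) ^ 2) - 2 * k.im * Real.exp (-k.im) * Real.sin k.re) := by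
  rw [Complex.sq_norm, Complex.sq_norm, Complex.normSq_apply, Complex.normSq_apply]
  unfold UD UN
  simp only [add_re, sub_re, mul_re, one_re, add_im, sub_im, mul_im, one_im, ss_re, ss_im]
  have h := Real.sin_sq_add_cos_sq k.re
  linear_combination (-4 * k.re * Real.exp (-k.im) ^ 2) * h

lemma V_diff (k : ℂ) : ‖VD k‖ ^ 2 - ‖VN k‖ ^ 2 =
    4 * (k.re * (1 - Real.exp (-k.im) ^ 2) + 2 * k.im * Real.exp (-k.im) * Real.sin k.re) := by
  rw [Complex.sq_norm, Complex.sq_norm, Complex.normSq_apply, Complex.normSq_apply]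
  unfold VD VN
  simp only [add_re, sub_re, mul_re, one_re, add_im, sub_im, mul_im, one_im, ss_re, ss_im]
  have h := Real.sin_sq_add_cos_sq k.re
  linear_combination (-4 * k.re * Real.exp (-k.im) ^ 2) * h

lemma abs_sin_le' {x : ℝ} (hx : 0 ≤ x) : |Real.sin x| ≤ x := by
  have := Real.abs_sin_le_abs (x := x)
  rwa [abs_of_nonneg hx] at this

lemma exp_key {y : ℝ} (hy : 0 ≤ y) : 2 * y * Real.exp (-y) ≤ 1 - Real.exp (-y) ^ 2 := by
  have h1 : y ≤ Real.sinh y := Real.self_le_sinh_iff.2 hy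
  rw [Real.sinh_eq] at h1
  have h2 : 0 < Real.exp (-y) := Real.exp_pos _
  have h3 : Real.exp y * Real.exp (-y) = 1 := by rw [← Real.exp_add]; simp
  nlinarith

lemma key_ineq {x y : ℝ} (hx : 0 ≤ x) (hy : 0 ≤ y) :
    |2 * y * Real.exp (-y) * Real.sin x| ≤ x * (1 - Real.exp (-y) ^ 2) := by
  have h1 := exp_key hy
  have h2 := abs_sin_le' hx
  have h3 : 0 ≤ 2 * y * Real.exp (-y) := by positivity
  rw [abs_mul, abs_of_nonneg h3]
  calc 2 * y * Real.exp (-y) * |Real.sin x| ≤ 2 * y * Real.exp (-y) * x := by gcongr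
    _ ≤ (1 - Real.exp (-y) ^ 2) * x := by gcongr
    _ = _ := by ring

lemma U_le {k : ℂ} (h1 : 0 ≤ k.re) (h2 : 0 ≤ k.im) : ‖UN k‖ ≤ ‖UD k‖ := by
  have h := U_diff k
  have h3 := (abs_le.1 (key_ineq h1 h2)).2
  have : ‖UN k‖ ^ 2 ≤ ‖UD k‖ ^ 2 := by linarith
  exact le_of_sq_le_sq this (norm_nonneg _)

lemma V_le {k : ℂ} (h1 : 0 ≤ k.re) (h2 : 0 ≤ k.im) : ‖VN k‖ ≤ ‖VD k‖ := by
  have h := V_diff k
  have h3 := (abs_le.1 (key_ineq h1 h2)).1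
  have : ‖VN k‖ ^ 2 ≤ ‖VD k‖ ^ 2 := by linarith
  exact le_of_sq_le_sq this (norm_nonneg _)

lemma UD_ne {k : ℂ} (h1 : 0 ≤ k.re) (h2 : 0 ≤ k.im) (hk : k ≠ 0) : UD k ≠ 0 := by
  intro h
  have h3 := U_le h1 h2
  rw [h, norm_zero] at h3
  have h4 : UN k = 0 := norm_eq_zero.1 (le_antisymm h3 (norm_nonneg _))
  unfold UD at h; unfold UN at h4
  have hs : ss k = 1 := by linear_combination (h4 - h) / 2
  rw [hs] at h
  apply hk
  linear_combination h / 2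

lemma VD_ne {k : ℂ} (h1 : 0 ≤ k.re) (h2 : 0 ≤ k.im) (hk : k ≠ 0) : VD k ≠ 0 := by
  intro h
  have h3 := V_le h1 h2
  rw [h, norm_zero] at h3
  have h4 : VN k = 0 := norm_eq_zero.1 (le_antisymm h3 (norm_nonneg _))
  unfold VD at h; unfold VN at h4
  have hs : ss k = -1 := by linear_combination (h - h4) / 2
  rw [hs] at h
  apply hk
  linear_combination h / 2

lemma uu_le {k : ℂ} (h1 : 0 ≤ k.re) (h2 : 0 ≤ k.im) : ‖uu k‖ ≤ 1 := by
  unfold uu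
  rw [norm_div]
  exact div_le_one_of_le₀ (U_le h1 h2) (norm_nonneg _)

lemma vv_le {k : ℂ} (h1 : 0 ≤ k.re) (h2 : 0 ≤ k.im) : ‖vv k‖ ≤ 1 := by
  unfold vv
  rw [norm_div]
  exact div_le_one_of_le₀ (V_le h1 h2) (norm_nonneg _)

lemma uu_eq_one {k : ℂ} (h1 : 0 ≤ k.re) (h2 : 0 ≤ k.im) (hk : k ≠ 0) (hb : k.re = 0 ∨ k.im = 0) : ‖uu k‖ = 1 := by
  have h := U_diff k
  have h3 : ‖UD k‖ ^ 2 - ‖UN k‖ ^ 2 = 0 := by
    rw [h]
    rcases hb with hb | hb <;> rw [hb] <;> simp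
  have h4 : ‖UN k‖ = ‖UD k‖ := by
    rw [← abs_of_nonneg (norm_nonneg (UN k)), ← abs_of_nonneg (norm_nonneg (UD k))]
    exact sq_eq_sq_iff_abs_eq_abs _ _ |>.1 (by linarith)
  unfold uu
  rw [norm_div, h4]
  exact div_self (norm_ne_zero_iff.2 (UD_ne h1 h2 hk))

lemma vv_eq_one {k : ℂ} (h1 : 0 ≤ k.re) (h2 : 0 ≤ k.im) (hk : k ≠ 0) (hb : k.re = 0 ∨ k.im = 0) : ‖vv k‖ = 1 := by
  have h := V_diff k
  have h3 : ‖VD k‖ ^ 2 - ‖VN k‖ ^ 2 = 0 := by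
    rw [h]
    rcases hb with hb | hb <;> rw [hb] <;> simp
  have h4 : ‖VN k‖ = ‖VD k‖ := by
    rw [← abs_of_nonneg (norm_nonneg (VN k)), ← abs_of_nonneg (norm_nonneg (VD k))]
    exact sq_eq_sq_iff_abs_eq_abs _ _ |>.1 (by linarith)
  unfold vv
  rw [norm_div, h4]
  exact div_self (norm_ne_zero_iff.2 (VD_ne h1 h2 hk))

lemma parallel (k : ℂ) : ‖fa k‖ ^ 2 + ‖fb k‖ ^ 2 = (‖uu k‖ ^ 2 + ‖vv k‖ ^ 2) / 2 := by
  have h := parallelogram_law_with_norm ℝ (uu k) (vv k)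
  unfold fa fb
  rw [norm_div, norm_div, Complex.norm_ofNat]
  linear_combination h / 4

lemma ab_le {k : ℂ} (h1 : 0 ≤ k.re) (h2 : 0 ≤ k.im) : ‖fa k‖ ^ 2 + ‖fb k‖ ^ 2 ≤ 1 := by
  rw [parallel]
  have h3 := uu_le h1 h2
  have h4 := vv_le h1 h2
  nlinarith [norm_nonneg (uu k), norm_nonneg (vv k)]

lemma ab_eq {k : ℂ} (h1 : 0 ≤ k.re) (h2 : 0 ≤ k.im) (hk : k ≠ 0) (hb : k.re = 0 ∨ k.im = 0) :
    ‖fa k‖ ^ 2 + ‖fb k‖ ^ 2 = 1 := by
  rw [parallel, uu_eq_one h1 h2 hk hb, vv_eq_one h1 h2 hk hb]; norm_num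

lemma fa_eq {k : ℂ} (h1 : 0 ≤ k.re) (h2 : 0 ≤ k.im) (hk : k ≠ 0) : fa k = 4 * k * ss k / (UD k * VD k) / 1 := by
  have hU := UD_ne h1 h2 hk
  have hV := VD_ne h1 h2 hk
  unfold fa uu vv
  rw [div_sub_div _ _ hU hV, div_div, div_one, div_eq_div_iff (mul_ne_zero (mul_ne_zero hU hV) two_ne_zero) (mul_ne_zero hU hV)]
  unfold UN UD VN VD
  ring

lemma UD_le {k : ℂ} (h2 : 0 ≤ k.im) : ‖UD k‖ ≤ 4 * ‖k‖ := by
  unfold UD
  refine (norm_add_le _ _).trans ?_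
  rw [norm_mul]
  have h3 : ‖1 + ss k‖ ≤ 2 := by
    refine (norm_add_le _ _).trans ?_
    rw [norm_one]; linarith [ss_norm_le h2]
  have h4 := one_sub_ss h2
  nlinarith [norm_nonneg k]

lemma UD_le' {k : ℂ} (h2 : 0 ≤ k.im) : ‖UD k‖ ≤ 2 * (‖k‖ + 1) := by
  unfold UD
  refine (norm_add_le _ _).trans ?_
  rw [norm_mul]
  have h3 : ‖1 + ss k‖ ≤ 2 := by
    refine (norm_add_le _ _).trans ?_
    rw [norm_one]; linarith [ss_norm_le h2]
  have h4 : ‖1 - ss k‖ ≤ 2 := by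
    refine (norm_sub_le _ _).trans ?_
    rw [norm_one]; linarith [ss_norm_le h2]
  nlinarith [norm_nonneg k]

lemma VD_le {k : ℂ} (h2 : 0 ≤ k.im) : ‖VD k‖ ≤ 2 * (‖k‖ + 1) := by
  unfold VD
  refine (norm_add_le _ _).trans ?_
  rw [norm_mul]
  have h3 : ‖1 + ss k‖ ≤ 2 := by
    refine (norm_add_le _ _).trans ?_
    rw [norm_one]; linarith [ss_norm_le h2]
  have h4 : ‖1 - ss k‖ ≤ 2 := by
    refine (norm_sub_le _ _).trans ?_
    rw [norm_one]; linarith [ss_norm_le h2]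
  nlinarith [norm_nonneg k]

lemma fa_ge {k : ℂ} (h1 : 0 ≤ k.re) (h2 : 0 ≤ k.im) (hk : k ≠ 0) : Real.exp (-(2 * ‖k‖ + 1)) ≤ ‖fa k‖ := by
  have hU := UD_ne h1 h2 hk
  have hV := VD_ne h1 h2 hk
  have hk0 : 0 < ‖k‖ := norm_pos_iff.2 hk
  rw [fa_eq h1 h2 hk, div_one, norm_div, norm_mul, norm_mul, norm_mul, Complex.norm_ofNat, ss_norm,
    le_div_iff₀ (mul_pos (norm_pos_iff.2 hU) (norm_pos_iff.2 hV))]
  have h3 : ‖UD k‖ * ‖VD k‖ ≤ (4 * ‖k‖) * (2 * (‖k‖ + 1)) := by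
    gcongr
    · exact UD_le h2
    · exact VD_le h2
  have h4 : ‖k‖ + 1 ≤ Real.exp ‖k‖ := Real.add_one_le_exp _
  have h5 : 2 ≤ Real.exp 1 := by
    have := Real.add_one_le_exp (1:ℝ); linarith
  have h6 : k.im ≤ ‖k‖ := (le_abs_self _).trans (Complex.abs_im_le_norm k)
  have h7 : Real.exp (-(2 * ‖k‖ + 1)) = Real.exp (-‖k‖) * Real.exp (-‖k‖) * Real.exp (-1) := by
    rw [← Real.exp_add, ← Real.exp_add]; ring_nf
  have h8 : Real.exp (-‖k‖) ≤ Real.exp (-k.im) := Real.exp_le_exp.2 (by linarith)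
  have h9 : Real.exp (-‖k‖) * (‖k‖ + 1) ≤ 1 := by
    calc Real.exp (-‖k‖) * (‖k‖ + 1) ≤ Real.exp (-‖k‖) * Real.exp ‖k‖ := by gcongr
      _ = 1 := by rw [← Real.exp_add]; simp
  have h10 : Real.exp (-1) * 2 ≤ 1 := by
    calc Real.exp (-1) * 2 ≤ Real.exp (-1) * Real.exp 1 := by gcongr
      _ = 1 := by rw [← Real.exp_add]; simp
  calc Real.exp (-(2 * ‖k‖ + 1)) * (‖UD k‖ * ‖VD k‖)
      ≤ Real.exp (-‖k‖) * Real.exp (-‖k‖) * Real.exp (-1) * ((4 * ‖k‖) * (2 * (‖k‖ + 1))) := by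
        rw [h7]; gcongr
    _ = (4 * ‖k‖) * Real.exp (-‖k‖) * (Real.exp (-‖k‖) * (‖k‖ + 1)) * (Real.exp (-1) * 2) := by ring
    _ ≤ (4 * ‖k‖) * Real.exp (-k.im) * 1 * 1 := by gcongr
    _ = _ := by ring

lemma fa_ne {k : ℂ} (h1 : 0 ≤ k.re) (h2 : 0 ≤ k.im) (hk : k ≠ 0) : fa k ≠ 0 := by
  intro h
  have := fa_ge h1 h2 hk
  rw [h, norm_zero] at this
  exact absurd (Real.exp_pos _) (not_lt.2 this)

lemma fb_sq_le {k : ℂ} (h1 : 0 ≤ k.re) (h2 : 0 ≤ k.im) (hk : k ≠ 0) {R : ℝ} (hR : ‖k‖ ≤ R) :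
    ‖fb k‖ ^ 2 ≤ 1 - Real.exp (-(2 * R + 1)) ^ 2 := by
  have h3 := ab_le h1 h2
  have h4 := fa_ge h1 h2 hk
  have h5 : Real.exp (-(2 * R + 1)) ≤ Real.exp (-(2 * ‖k‖ + 1)) := Real.exp_le_exp.2 (by linarith)
  have h6 : Real.exp (-(2 * R + 1)) ^ 2 ≤ ‖fa k‖ ^ 2 := by
    have := h5.trans h4
    gcongr
  linarith

lemma fb_lt_one {k : ℂ} (h1 : 0 ≤ k.re) (h2 : 0 ≤ k.im) (hk : k ≠ 0) : ‖fb k‖ < 1 := by
  have h3 := fb_sq_le h1 h2 hk le_rfl
  have h4 := Real.exp_pos (-(2 * ‖k‖ + 1))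
  nlinarith [norm_nonneg (fb k), pow_pos h4 2]

/-- on the diagonal `k = (1+i) t` the function `b` is far from the unit circle -/
lemma fb_diag {k : ℂ} {t : ℝ} (ht : 2 ≤ t) (h1 : k.re = t) (h2 : k.im = t) : ‖fb k‖ ≤ 1 - 1 / (64 * t) := by
  have hr : 0 ≤ k.re := by rw [h1]; linarith
  have hi : 0 ≤ k.im := by rw [h2]; linarith
  have hk : k ≠ 0 := by
    intro h; rw [h] at h1; simp at h1; linarith
  have hU := UD_ne hr hi hk
  have hkn : ‖k‖ ^ 2 = 2 * t ^ 2 := by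
    rw [Complex.sq_norm, Complex.normSq_apply, h1, h2]; ring
  have hk2 : ‖k‖ ≤ 3 / 2 * t := by
    refine le_of_sq_le_sq ?_ (by linarith)
    rw [hkn]; nlinarith
  have hUD : ‖UD k‖ ≤ 4 * t := (UD_le' hi).trans (by linarith)
  have hE : Real.exp (-t) ≤ 1 / 4 := by
    have h3 : Real.exp (-t) ≤ Real.exp (-2) := Real.exp_le_exp.2 (by linarith)
    have h4 : (4:ℝ) ≤ Real.exp 2 := by
      have h5 : (2:ℝ) ≤ Real.exp 1 := by have := Real.add_one_le_exp (1:ℝ); linarith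
      have h6 : Real.exp 2 = Real.exp 1 * Real.exp 1 := by rw [← Real.exp_add]; norm_num
      rw [h6]; nlinarith
    refine h3.trans ?_
    rw [Real.exp_neg, inv_eq_one_div]
    exact one_div_le_one_div_of_le (by norm_num) h4
  have hE0 := Real.exp_pos (-t)
  have hd : ‖UD k‖ ^ 2 - ‖UN k‖ ^ 2 ≥ t := by
    rw [U_diff, h1, h2]
    have h5 : Real.sin t ≤ 1 := Real.sin_le_one t
    have h6 : 2 * t * Real.exp (-t) * Real.sin t ≤ 2 * t * Real.exp (-t) * 1 := by gcongr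
    have h7 : 2 * t * Real.exp (-t) ≤ 2 * t * (1 / 4) := by gcongr
    have h8 : Real.exp (-t) ^ 2 ≤ (1 / 4) ^ 2 := by gcongr
    nlinarith
  have hu2 : ‖uu k‖ ^ 2 ≤ 1 - 1 / (16 * t) := by
    unfold uu
    rw [norm_div, div_pow, div_le_iff₀ (by positivity)]
    have h9 : ‖UD k‖ ^ 2 ≤ 16 * t ^ 2 := by
      calc ‖UD k‖ ^ 2 ≤ (4 * t) ^ 2 := by gcongr
        _ = _ := by ring
    have h10 : 1 / (16 * t) * ‖UD k‖ ^ 2 ≤ t := by
      calc 1 / (16 * t) * ‖UD k‖ ^ 2 ≤ 1 / (16 * t) * (16 * t ^ 2) := by gcongr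
        _ = t := by field_simp
    nlinarith
  have hu : ‖uu k‖ ≤ 1 - 1 / (32 * t) := by
    have h11 : 0 ≤ 1 - 1 / (32 * t) := by
      have : 1 / (32 * t) ≤ 1 := by rw [div_le_one (by linarith)]; linarith
      linarith
    refine le_of_sq_le_sq (hu2.trans ?_) h11
    have : 1 / (16 * t) = 2 * (1 / (32 * t)) := by field_simp; norm_num
    rw [this]; nlinarith [sq_nonneg (1 / (32 * t))]
  have hv := vv_le hr hi
  have hb : ‖fb k‖ ≤ (‖uu k‖ + ‖vv k‖) / 2 := by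
    unfold fb
    rw [norm_div, Complex.norm_ofNat]
    have := norm_add_le (uu k) (vv k)
    linarith
  have h12 : 1 / (64 * t) = 1 / (32 * t) / 2 := by field_simp; norm_num
  rw [h12]
  linarith

lemma ss_differentiable : Differentiable ℂ ss := by
  unfold ss; fun_prop

lemma uu_differentiableAt {k : ℂ} (h1 : 0 ≤ k.re) (h2 : 0 ≤ k.im) (hk : k ≠ 0) : DifferentiableAt ℂ uu k := by
  have hs := ss_differentiable k
  unfold uu
  refine DifferentiableAt.div ?_ ?_ (UD_ne h1 h2 hk) <;> (first | unfold UN | unfold UD) <;> fun_prop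

lemma vv_differentiableAt {k : ℂ} (h1 : 0 ≤ k.re) (h2 : 0 ≤ k.im) (hk : k ≠ 0) : DifferentiableAt ℂ vv k := by
  have hs := ss_differentiable k
  unfold vv
  refine DifferentiableAt.div ?_ ?_ (VD_ne h1 h2 hk) <;> (first | unfold VN | unfold VD) <;> fun_prop

lemma fa_differentiableAt {k : ℂ} (h1 : 0 ≤ k.re) (h2 : 0 ≤ k.im) (hk : k ≠ 0) : DifferentiableAt ℂ fa k := by
  have hu := uu_differentiableAt h1 h2 hk
  have hv := vv_differentiableAt h1 h2 hk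
  unfold fa; fun_prop

lemma fb_differentiableAt {k : ℂ} (h1 : 0 ≤ k.re) (h2 : 0 ≤ k.im) (hk : k ≠ 0) : DifferentiableAt ℂ fb k := by
  have hu := uu_differentiableAt h1 h2 hk
  have hv := vv_differentiableAt h1 h2 hk
  unfold fb; fun_prop

/-- boundary identities -/
lemma boundary_id {u v : ℂ} (hu : ‖u‖ = 1) (hv : ‖v‖ = 1) :
    (starRingEnd ℂ) ((u - v) / 2) * (u * v) = -((u - v) / 2) ∧
    (starRingEnd ℂ) ((u + v) / 2) * (u * v) = (u + v) / 2 := by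
  have h1 : (starRingEnd ℂ) u * u = 1 := by
    rw [Complex.conj_mul', hu]; norm_num
  have h2 : (starRingEnd ℂ) v * v = 1 := by
    rw [Complex.conj_mul', hv]; norm_num
  constructor
  · rw [map_div₀, map_sub]
    simp only [Complex.conj_ofNat]
    linear_combination v / 2 * h1 - u / 2 * h2
  · rw [map_div₀, map_add]
    simp only [Complex.conj_ofNat]
    linear_combination v / 2 * h1 + u / 2 * h2

lemma fb_at_one : fb 1 = 0 := by
  have hU := UD_ne (k := 1) (by simp) (by simp) one_ne_zero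
  have hV := VD_ne (k := 1) (by simp) (by simp) one_ne_zero
  unfold fb uu vv
  rw [div_add_div _ _ hU hV]
  have : UN 1 * VD 1 + UD 1 * VN 1 = 0 := by
    unfold UN VD UD VN; ring
  rw [this]; simp

/-- the value of `b` at `k = π/2` is not zero -/
lemma fb_at_half_pi : fb ((Real.pi / 2 : ℝ) : ℂ) ≠ 0 := by
  set k : ℂ := ((Real.pi / 2 : ℝ) : ℂ) with hk
  have hp := Real.pi_gt_three
  have h1 : 0 ≤ k.re := by rw [hk, Complex.ofReal_re]; positivity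
  have h2 : 0 ≤ k.im := by rw [hk, Complex.ofReal_im]
  have hk0 : k ≠ 0 := by
    rw [hk, Complex.ofReal_ne_zero]; positivity
  have hU := UD_ne h1 h2 hk0
  have hV := VD_ne h1 h2 hk0
  have hs : ss k ^ 2 = -1 := by
    unfold ss
    rw [← Complex.exp_nat_mul, hk]
    have : ((2:ℕ):ℂ) * (I * ((Real.pi / 2 : ℝ) : ℂ)) = Real.pi * I := by push_cast; ring
    rw [this, Complex.exp_pi_mul_I]
  unfold fb uu vv
  rw [div_add_div _ _ hU hV]
  have : UN k * VD k + UD k * VN k = 4 * (k ^ 2 - 1) := by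
    unfold UN VD UD VN; linear_combination (-2 * k ^ 2 + 2) * hs
  rw [this]
  refine div_ne_zero (div_ne_zero ?_ (mul_ne_zero hU hV)) two_ne_zero
  refine mul_ne_zero (by norm_num) ?_
  rw [hk]
  intro h
  have h3 : (Real.pi / 2) ^ 2 - 1 = 0 := by exact_mod_cast h
  nlinarith

end Pool.Agent.TH606.Arov
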