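import Pool.Agent.TH606.Arov.AbsCont

/-!
# Mean values on the circle, integrability of `log |o|`, vanishing of the negative coefficients
-/

open MeasureTheory Filter Topology Complex
open Pool.Agent.Helper630.Szego

namespace Pool.Agent.TH606.Arov

open scoped ENNReal

lemma pt_injective : Function.Injective pt := by
  intro a b h
  unfold pt at h
  exact AddCircle.injective_toCircle Real.two_pi_pos.ne' (Subtype.ext h)

lemma vol_singleton (θ : TT) : (volume : Measure TT) {θ} = 0 := by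
  rw [← Metric.closedBall_zero, AddCircle.volume_closedBall]
  simp [Real.two_pi_pos.le]

lemma ae_ne (w : ℂ) : ∀ᵐ θ : TT, pt θ ≠ w := by
  rw [ae_iff]
  simp only [ne_eq, not_not]
  by_cases h : ∃ θ₀, pt θ₀ = w
  · obtain ⟨θ₀, rfl⟩ := h
    refine measure_mono_null (t := {θ₀}) ?_ (vol_singleton θ₀)
    intro θ hθ
    exact pt_injective hθ
  · push Not at h
    have : {θ : TT | pt θ = w} = ∅ := by
      ext θ; simp [h θ]
    rw [this]; simp

lemma circleAverage_TT {E : Type*} [NormedAddCommGroup E] [NormedSpace ℝ E] (F : ℂ → E) (r : ℝ) :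
    Real.circleAverage F 0 r = (2 * Real.pi)⁻¹ • ∫ θ : TT, F (r * pt θ) := by
  rw [Real.circleAverage_def]
  congr 1
  have h := AddCircle.intervalIntegral_preimage (2 * Real.pi) 0 (fun θ : TT => F (r * pt θ))
  rw [zero_add] at h
  rw [← h]
  refine intervalIntegral.integral_congr fun x _ => ?_
  rw [pt_coe, circleMap, zero_add]

lemma mean_TT {E : Type*} [NormedAddCommGroup E] [NormedSpace ℂ E] [CompleteSpace E] {F : ℂ → E}
    (hF : ∀ z : ℂ, ‖z‖ < 1 → DifferentiableAt ℂ F z) {r : ℝ} (h0 : 0 < r) (h1 : r < 1) :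
    ∫ θ : TT, F (r * pt θ) = (2 * Real.pi) • F 0 := by
  have h2 : DiffContOnCl ℂ F (Metric.ball 0 |r|) := by
    refine DifferentiableOn.diffContOnCl ?_
    intro z hz
    refine (hF z ?_).differentiableWithinAt
    have := Metric.closure_ball_subset_closedBall hz
    rw [mem_closedBall_zero_iff, abs_of_pos h0] at this
    exact this.trans_lt h1
  have h3 := h2.circleAverage
  rw [circleAverage_TT] at h3
  rw [← h3, smul_smul, mul_inv_cancel₀ Real.two_pi_pos.ne', one_smul]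

lemma mean_TT_log {F : ℂ → ℂ} (hF : ∀ z : ℂ, ‖z‖ < 1 → DifferentiableAt ℂ F z) (hne : ∀ z : ℂ, ‖z‖ < 1 → F z ≠ 0)
    {r : ℝ} (h0 : 0 < r) (h1 : r < 1) :
    ∫ θ : TT, Real.log ‖F (r * pt θ)‖ = (2 * Real.pi) * Real.log ‖F 0‖ := by
  have h2 : InnerProductSpace.HarmonicOnNhd (fun z => Real.log ‖F z‖) (Metric.closedBall 0 |r|) := by
    intro z hz
    rw [mem_closedBall_zero_iff, abs_of_pos h0] at hz
    have hz1 : ‖z‖ < 1 := hz.trans_lt h1
    refine AnalyticAt.harmonicAt_log_norm ?_ (hne z hz1)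
    have hd : DifferentiableOn ℂ F (Metric.ball 0 1) := fun w hw =>
      (hF w (mem_ball_zero_iff.1 hw)).differentiableWithinAt
    exact hd.analyticAt (Metric.isOpen_ball.mem_nhds (mem_ball_zero_iff.2 hz1))
  have h3 := h2.circleAverage_eq
  rw [circleAverage_TT, smul_eq_mul] at h3
  rw [← h3, ← mul_assoc, mul_inv_cancel₀ Real.two_pi_pos.ne', one_mul]

/-- the dominating function -/
noncomputable def Gd (θ : TT) : ℝ := Real.sqrt (1 / ‖1 - pt θ‖)

lemma Gd_measurable : Measurable Gd := by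
  unfold Gd
  have : Measurable pt := pt_continuous.measurable
  fun_prop

lemma norm_one_sub_exp (x : ℝ) (h0 : 0 < x) (h1 : x < 2 * Real.pi) :
    Real.sqrt (1 / ‖1 - Complex.exp (x * I)‖) ≤ Real.sqrt (Real.pi / 2) * (x ^ (-(1/2) : ℝ) + (2 * Real.pi - x) ^ (-(1/2) : ℝ)) := by
  have hp := Real.pi_pos
  have h2 : ‖1 - Complex.exp (x * I)‖ = 2 * Real.sin (x / 2) := by
    rw [norm_sub_rev, mul_comm, Complex.norm_exp_I_mul_ofReal_sub_one, Real.norm_of_nonneg]
    have := Real.sin_nonneg_of_nonneg_of_le_pi (x := x / 2) (by linarith) (by linarith)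
    linarith
  have key : ∀ y : ℝ, 0 < y → y ≤ Real.pi → Real.sqrt (1 / (2 * Real.sin (y / 2))) ≤ Real.sqrt (Real.pi / 2) * y ^ (-(1/2) : ℝ) := by
    intro y hy0 hy1
    have h3 : 2 / Real.pi * (y / 2) ≤ Real.sin (y / 2) := Real.mul_le_sin (by linarith) (by linarith)
    have h4 : 2 * y / Real.pi ≤ 2 * Real.sin (y / 2) := by
      have : 2 * y / Real.pi = 2 * (2 / Real.pi * (y / 2)) := by ring
      rw [this]; linarith
    have h5 : 0 < 2 * y / Real.pi := by positivity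
    have h6 : 1 / (2 * Real.sin (y / 2)) ≤ Real.pi / 2 * y⁻¹ := by
      refine (one_div_le_one_div_of_le h5 h4).trans (le_of_eq ?_)
      field_simp
    refine (Real.sqrt_le_sqrt h6).trans (le_of_eq ?_)
    rw [Real.sqrt_mul (by positivity)]
    congr 1
    rw [Real.rpow_neg hy0.le, ← Real.sqrt_eq_rpow, Real.sqrt_inv]
  rw [h2]
  have e0 : 0 ≤ Real.sqrt (Real.pi / 2) := Real.sqrt_nonneg _
  have e1 : 0 ≤ x ^ (-(1/2) : ℝ) := Real.rpow_nonneg h0.le _
  have e2 : 0 ≤ (2 * Real.pi - x) ^ (-(1/2) : ℝ) := Real.rpow_nonneg (by linarith) _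
  by_cases hx : x ≤ Real.pi
  · refine (key x h0 hx).trans ?_
    nlinarith [mul_nonneg e0 e2]
  · push Not at hx
    have h7 := key (2 * Real.pi - x) (by linarith) (by linarith)
    have h8 : Real.sin ((2 * Real.pi - x) / 2) = Real.sin (x / 2) := by
      rw [← Real.sin_pi_sub (x / 2)]; congr 1; ring
    rw [h8] at h7
    refine h7.trans ?_
    nlinarith [mul_nonneg e0 e1]

lemma Gd_integrable : Integrable Gd := by
  have hmp := AddCircle.measurePreserving_mk (2 * Real.pi) 0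
  rw [← hmp.integrable_comp Gd_measurable.aestronglyMeasurable]
  have hr : IntervalIntegrable (fun x : ℝ => x ^ (-(1/2) : ℝ)) volume 0 (2 * Real.pi) :=
    intervalIntegral.intervalIntegrable_rpow' (by norm_num)
  have hr2 : IntervalIntegrable (fun x : ℝ => (2 * Real.pi - x) ^ (-(1/2) : ℝ)) volume 0 (2 * Real.pi) := by
    have := hr.comp_sub_left (2 * Real.pi)
    simp only [sub_zero, sub_self] at this
    exact this.symm
  have h3 : IntegrableOn (fun x : ℝ => Real.sqrt (Real.pi / 2) * (x ^ (-(1/2) : ℝ) + (2 * Real.pi - x) ^ (-(1/2) : ℝ)))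
      (Set.Ioc 0 (2 * Real.pi)) := by
    have := (hr.add hr2).const_mul (Real.sqrt (Real.pi / 2))
    rw [intervalIntegrable_iff_integrableOn_Ioc_of_le Real.two_pi_pos.le] at this
    exact this
  have h4 : (Set.Ioc (0:ℝ) (0 + 2 * Real.pi)) = Set.Ioc 0 (2 * Real.pi) := by rw [zero_add]
  rw [h4] at *
  refine Integrable.mono' h3 ?_ ?_
  · exact (Gd_measurable.comp AddCircle.measurable_mk').aestronglyMeasurable
  · rw [← restrict_Ioo_eq_restrict_Ioc]
    refine (ae_restrict_iff' measurableSet_Ioo).2 (ae_of_all _ fun x hx => ?_)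
    have h5 := norm_one_sub_exp x hx.1 hx.2
    have h6 : (Gd ∘ ((↑) : ℝ → TT)) x = Real.sqrt (1 / ‖1 - Complex.exp (x * I)‖) := by
      simp only [Function.comp, Gd, pt_coe]
    rw [h6, Real.norm_of_nonneg (Real.sqrt_nonneg _)]
    exact h5

lemma K_radial_le {θ : TT} (h1 : pt θ ≠ 1) {r : ℝ} (hr0 : 0 ≤ r) (hr1 : r ≤ 1) : ‖K (r * pt θ)‖ ≤ 2 * Gd θ := by
  have h2 := K_norm_sq (r * pt θ)
  have h3 := cay_norm_le (pt_norm θ) h1 hr0 hr1
  have h4 : ‖K (r * pt θ)‖ = Real.sqrt ‖cay (r * pt θ)‖ := by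
    rw [← h2, Real.sqrt_sq (norm_nonneg _)]
  rw [h4]
  refine (Real.sqrt_le_sqrt h3).trans (le_of_eq ?_)
  unfold Gd
  have h5 : 4 / ‖1 - pt θ‖ = 2 ^ 2 * (1 / ‖1 - pt θ‖) := by ring
  rw [h5, Real.sqrt_mul (by norm_num), Real.sqrt_sq (by norm_num)]

noncomputable def C0 : ℝ := |Real.log (kap / 2)| + 1

lemma log_oo_abs {z : ℂ} (h1 : 0 ≤ (K z).re) (h2 : 0 ≤ (K z).im) (h3 : K z ≠ 0) :
    |Real.log ‖oo z‖| ≤ C0 + 2 * ‖K z‖ := by
  have h4 := oo_ge h1 h2 h3
  have h5 := oo_le_one h1 h2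
  have h6 := norm_pos_iff.2 (oo_ne h1 h2 h3)
  have h7 : Real.log ‖oo z‖ ≤ 0 := Real.log_nonpos (norm_nonneg _) h5
  rw [abs_of_nonpos h7]
  have h8 : Real.log (kap / 2 * Real.exp (-(2 * ‖K z‖ + 1))) ≤ Real.log ‖oo z‖ :=
    Real.log_le_log (by have := kap_pos; positivity) h4
  rw [Real.log_mul (by have := kap_pos; positivity) (Real.exp_pos _).ne', Real.log_exp] at h8
  have h9 := neg_abs_le (Real.log (kap / 2))
  unfold C0
  linarith

lemma inside_pt {θ : TT} {r : ℝ} (hr0 : 0 < r) (hr1 : r < 1) : ‖(r : ℂ) * pt θ‖ < 1 := by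
  rw [norm_mul, pt_norm, mul_one, Complex.norm_real, Real.norm_of_nonneg hr0.le]; exact hr1

lemma ev_lt : ∀ᶠ s : ℝ in 𝓝[<] 1, s < 1 := self_mem_nhdsWithin
lemma ev_gt : ∀ᶠ s : ℝ in 𝓝[<] 1, 0 < s := mem_nhdsWithin_of_mem_nhds (lt_mem_nhds one_pos)

lemma dom_tendsto : Tendsto (fun r : ℝ => ∫ θ : TT, Real.log ‖oo (r * pt θ)‖) (𝓝[<] 1)
    (𝓝 (∫ θ : TT, Real.log ‖oo (pt θ)‖)) := by
  refine tendsto_integral_filter_of_dominated_convergence (fun θ => C0 + 4 * Gd θ) ?_ ?_ ?_ ?_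
  · filter_upwards [ev_lt, ev_gt] with r hr1 hr0
    refine Continuous.aestronglyMeasurable ?_
    rw [continuous_iff_continuousAt]
    intro θ
    have hin := inside_pt (θ := θ) hr0 hr1
    obtain ⟨h1, h2, h3⟩ := inside hin
    have hc : ContinuousAt (fun θ : TT => (r : ℂ) * pt θ) θ := (continuous_const.mul pt_continuous).continuousAt
    have hc2 : ContinuousAt (fun θ : TT => oo ((r : ℂ) * pt θ)) θ :=
      ContinuousAt.comp (f := fun θ : TT => (r : ℂ) * pt θ) (g := oo) (oo_differentiableAt hin).continuousAt hc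
    exact hc2.norm.log (norm_ne_zero_iff.2 (oo_ne h1 h2 h3))
  · filter_upwards [ev_lt, ev_gt] with r hr1 hr0
    filter_upwards [ae_ne 1] with θ hθ
    have hin := inside_pt (θ := θ) hr0 hr1
    obtain ⟨h1, h2, h3⟩ := inside hin
    rw [Real.norm_eq_abs]
    have h4 := K_radial_le hθ hr0.le hr1.le
    have h5 := log_oo_abs h1 h2 h3
    linarith
  · exact (integrable_const _).add (Gd_integrable.const_mul _)
  · filter_upwards [ae_ne 1, ae_ne (-1)] with θ hθ1 hθ2
    obtain ⟨h1, h2, h3, _⟩ := onCircle (pt_norm θ) hθ1 hθ2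
    have hc := (circle_continuousAt (pt_norm θ) hθ1 hθ2).2.1
    have h4 : Tendsto (fun r : ℝ => oo (r * pt θ)) (𝓝[<] 1) (𝓝 (oo (pt θ))) := hc.tendsto.comp (radial_tendsto _)
    exact h4.norm.log (norm_ne_zero_iff.2 (oo_ne h1 h2 h3))

lemma log_oo_integrable : Integrable (fun θ : TT => Real.log ‖oo (pt θ)‖) := by
  refine Integrable.mono' (g := fun θ => C0 + 4 * Gd θ) ((integrable_const _).add (Gd_integrable.const_mul _)) ?_ ?_
  · -- a.e. limit of measurable functions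
    have hseq : Tendsto (fun n : ℕ => (1 - 1 / ((n : ℝ) + 2))) atTop (𝓝[<] 1) := by
      refine tendsto_nhdsWithin_iff.2 ⟨?_, ?_⟩
      · have h1 : Tendsto (fun n : ℕ => 1 / ((n : ℝ) + 2)) atTop (𝓝 0) := by
          have := tendsto_one_div_add_atTop_nhds_zero_nat (𝕜 := ℝ)
          have h2 := (tendsto_add_atTop_iff_nat 1).2 this
          refine h2.congr fun n => ?_
          push_cast; ring
        have h2 := h1.const_sub 1
        rw [sub_zero] at h2
        exact h2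
      · refine Eventually.of_forall fun n => ?_
        have : (0:ℝ) < 1 / ((n : ℝ) + 2) := by positivity
        simp only [Set.mem_Iio]; linarith
    refine aestronglyMeasurable_of_tendsto_ae atTop (f := fun (n : ℕ) (θ : TT) =>
      Real.log ‖oo (((1 - 1 / ((n : ℝ) + 2) : ℝ) : ℂ) * pt θ)‖) (fun n => ?_) ?_
    · refine Continuous.aestronglyMeasurable ?_
      rw [continuous_iff_continuousAt]
      intro θ
      have hr1 : (1 - 1 / ((n : ℝ) + 2) : ℝ) < 1 := by
        have : (0:ℝ) < 1 / ((n : ℝ) + 2) := by positivity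
        linarith
      have hr0 : 0 < (1 - 1 / ((n : ℝ) + 2) : ℝ) := by
        have : 1 / ((n : ℝ) + 2) < 1 := by
          rw [div_lt_one (by positivity)]
          have : (0:ℝ) ≤ n := Nat.cast_nonneg n
          linarith
        linarith
      have hin := inside_pt (θ := θ) hr0 hr1
      obtain ⟨h1, h2, h3⟩ := inside hin
      have hc : ContinuousAt (fun θ : TT => ((1 - 1 / ((n : ℝ) + 2) : ℝ) : ℂ) * pt θ) θ :=
        (continuous_const.mul pt_continuous).continuousAt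
      have hc2 : ContinuousAt (fun θ : TT => oo (((1 - 1 / ((n : ℝ) + 2) : ℝ) : ℂ) * pt θ)) θ :=
        ContinuousAt.comp (f := fun θ : TT => ((1 - 1 / ((n : ℝ) + 2) : ℝ) : ℂ) * pt θ) (g := oo)
          (oo_differentiableAt hin).continuousAt hc
      exact hc2.norm.log (norm_ne_zero_iff.2 (oo_ne h1 h2 h3))
    · filter_upwards [ae_ne 1, ae_ne (-1)] with θ hθ1 hθ2
      obtain ⟨h1, h2, h3, _⟩ := onCircle (pt_norm θ) hθ1 hθ2
      have hc := (circle_continuousAt (pt_norm θ) hθ1 hθ2).2.1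
      have h4 : Tendsto (fun r : ℝ => oo (r * pt θ)) (𝓝[<] 1) (𝓝 (oo (pt θ))) := hc.tendsto.comp (radial_tendsto _)
      exact (h4.norm.log (norm_ne_zero_iff.2 (oo_ne h1 h2 h3))).comp hseq
  · filter_upwards [ae_ne 1, ae_ne (-1)] with θ hθ1 hθ2
    obtain ⟨h1, h2, h3, _⟩ := onCircle (pt_norm θ) hθ1 hθ2
    rw [Real.norm_eq_abs]
    have h4 := K_radial_le hθ1 (r := 1) (by norm_num) le_rfl
    rw [Complex.ofReal_one, one_mul] at h4
    have h5 := log_oo_abs h1 h2 h3
    linarith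

/-- `o` is outer -/
lemma oo_outer : Real.log ‖oo 0‖ = (2 * Real.pi)⁻¹ * ∫ θ : TT, Real.log ‖oo (pt θ)‖ := by
  have h1 : Tendsto (fun r : ℝ => ∫ θ : TT, Real.log ‖oo (r * pt θ)‖) (𝓝[<] 1)
      (𝓝 ((2 * Real.pi) * Real.log ‖oo 0‖)) := by
    refine tendsto_const_nhds.congr' ?_
    filter_upwards [ev_lt, ev_gt] with r hr1 hr0
    refine (mean_TT_log (fun z hz => oo_differentiableAt hz) (fun z hz => ?_) hr0 hr1).symm
    obtain ⟨h1, h2, h3⟩ := inside hz
    exact oo_ne h1 h2 h3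
  have h2 := tendsto_nhds_unique h1 dom_tendsto
  rw [← h2, ← mul_assoc, inv_mul_cancel₀ Real.two_pi_pos.ne', one_mul]

/-- the negative Fourier coefficients of the boundary function of `gf` vanish -/
lemma gf_coeff (m : ℕ) (hm : m ≠ 0) : ∫ θ : TT, pt θ ^ m * gf (pt θ) = 0 := by
  have h1 : Tendsto (fun r : ℝ => ∫ θ : TT, ((r : ℂ) * pt θ) ^ m * gf (r * pt θ)) (𝓝[<] 1) (𝓝 0) := by
    refine tendsto_const_nhds.congr' ?_
    filter_upwards [ev_lt, ev_gt] with r hr1 hr0
    have := mean_TT (F := fun z => z ^ m * gf z) (fun z hz => ?_) hr0 hr1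
    · rw [this, zero_pow hm, zero_mul, smul_zero]
    · have := gf_differentiableAt hz
      fun_prop
  have h2 : Tendsto (fun r : ℝ => ∫ θ : TT, ((r : ℂ) * pt θ) ^ m * gf (r * pt θ)) (𝓝[<] 1)
      (𝓝 (∫ θ : TT, pt θ ^ m * gf (pt θ))) := by
    refine tendsto_integral_filter_of_dominated_convergence (fun _ => 2 / (1 - ‖be‖)) ?_ ?_ (integrable_const _) ?_
    · filter_upwards [ev_lt, ev_gt] with r hr1 hr0
      refine Continuous.aestronglyMeasurable ?_
      rw [continuous_iff_continuousAt]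
      intro θ
      have hin := inside_pt (θ := θ) hr0 hr1
      have hc : ContinuousAt (fun θ : TT => (r : ℂ) * pt θ) θ := (continuous_const.mul pt_continuous).continuousAt
      have hc2 : ContinuousAt (fun θ : TT => gf ((r : ℂ) * pt θ)) θ :=
        ContinuousAt.comp (f := fun θ : TT => (r : ℂ) * pt θ) (g := gf) (gf_differentiableAt hin).continuousAt hc
      exact (hc.pow m).mul hc2
    · filter_upwards [ev_lt, ev_gt] with r hr1 hr0
      refine ae_of_all _ fun θ => ?_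
      have hin := inside_pt (θ := θ) hr0 hr1
      obtain ⟨h1, h2, h3⟩ := inside hin
      rw [norm_mul, norm_pow]
      have h4 := gf_bound h1 h2
      have h5 : ‖(r : ℂ) * pt θ‖ ^ m ≤ 1 := pow_le_one₀ (norm_nonneg _) hin.le
      have h6 : 0 ≤ 2 / (1 - ‖be‖) := (norm_nonneg _).trans h4
      calc ‖(r : ℂ) * pt θ‖ ^ m * ‖gf (r * pt θ)‖ ≤ 1 * (2 / (1 - ‖be‖)) := by gcongr
        _ = _ := one_mul _
    · filter_upwards [ae_ne 1, ae_ne (-1)] with θ hθ1 hθ2
      have hc := (circle_continuousAt (pt_norm θ) hθ1 hθ2).2.2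
      have h4 : Tendsto (fun r : ℝ => gf (r * pt θ)) (𝓝[<] 1) (𝓝 (gf (pt θ))) := hc.tendsto.comp (radial_tendsto _)
      exact ((radial_tendsto (pt θ)).pow m).mul h4
  exact tendsto_nhds_unique h2 h1

end Pool.Agent.TH606.Arov
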